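import Pool.Agent.H586.GLU.Stm

/-!
# The directions
-/

set_option autoImplicit false
set_option linter.unusedSectionVars false
set_option linter.unusedVariables false

open MeasureTheory Matrix Finset Filter Topology
open scoped Matrix.Norms.Frobenius

namespace Pool.Agent.H586.GLU

open Pool.Agent.N990 hiding CB CB_nonneg dd_le
open Pool.Agent.N109.Slab

noncomputable section

variable {N D L : ℕ} {G : Subgroup (UU N)}

lemma Grp.zero {X : Mt N} {γ : ℝ → G} (h : Grp X γ) : γ 0 = 1 := by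
  have h1 := h 0
  rw [zero_smul, NormedSpace.exp_zero] at h1
  exact mt_inj (h1.trans mt_one.symm)

lemma vt_zero {X : Mt N} {γ : ℝ → G} (h : Grp X γ) (ω : SF D L) : vt γ ω 0 = 1 := by
  funext x a
  unfold vt
  rw [zero_mul, h.zero]
  rfl

lemma nu_Yf_le (W : Finset (Site D)) (σ : Cf G D L) : nu W (Yf σ) ≤ 2 * N :=
  nu_le (by positivity) fun x _ a => Yf_le σ x a

lemma nu_meas [MeasurableSpace G] [BorelSpace G] (W : Finset (Site D)) :
    Measurable fun σ : Cf G D L => nu W (Yf σ) := by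
  unfold nu
  refine measurable_coe_nnreal_real.comp ?_
  have h : ∀ q : Site D × Lab D L, Measurable fun σ : Cf G D L => ‖Yf σ q.1 q.2‖₊ := by
    intro q
    have h1 := Yf_meas (G := G) q.1 q.2
    have h2 : (fun σ : Cf G D L => ‖Yf σ q.1 q.2‖₊) =
        fun σ => Real.toNNReal ‖Yf σ q.1 q.2‖ := by
      funext σ
      exact (norm_toNNReal).symm
    rw [h2]
    exact h1.real_toNNReal
  classical
  induction (W ×ˢ (Finset.univ : Finset (Lab D L))) using Finset.induction_on with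
  | empty => simp only [Finset.sup_empty]; exact measurable_const
  | insert q S hq ih => simp only [Finset.sup_insert]; exact (h q).sup ih

lemma bdd_l {W : Finset (Site D)} {l : MF N D L →ₗ[ℝ] ℝ} {C : ℝ} (h : ∀ A, |l A| ≤ C * nu W A)
    (A : MF N D L) : |l A| ≤ |C| * nu W A :=
  (h A).trans (mul_le_mul_of_nonneg_right (le_abs_self C) (nu_nonneg W A))

lemma bdd_q {W : Finset (Site D)} {q : MF N D L →ₗ[ℝ] MF N D L →ₗ[ℝ] ℝ} {C : ℝ}
    (h : ∀ A B, |q A B| ≤ C * nu W A * nu W B) (A B : MF N D L) :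
    |q A B| ≤ |C| * nu W A * nu W B := by
  refine (h A B).trans ?_
  have h1 := nu_nonneg W A
  have h2 := nu_nonneg W B
  exact mul_le_mul_of_nonneg_right (mul_le_mul_of_nonneg_right (le_abs_self C) h1) h2

/-- the composition of a bounded functional and the shift operator -/
lemma bdd_T {V : Finset (Site D)} {ω : SF D L} {X : Mt N} {s : ℝ}
    (hT : ∀ A : MF N D L, nu (clA V) (Tm ω X A) ≤ s * nu (clA V) A)
    {l : MF N D L →ₗ[ℝ] ℝ} {C : ℝ} (h : ∀ A, |l A| ≤ C * nu (clA V) A) (A : MF N D L) :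
    |(l.comp (Tm ω X)) A| ≤ (|C| * s) * nu (clA V) A := by
  rw [LinearMap.comp_apply, mul_assoc]
  exact (bdd_l h _).trans (mul_le_mul_of_nonneg_left (hT A) (abs_nonneg C))

theorem dirC (hDH : S_DH) (hSD : S_SD) (hOBS : S_OBS) (hEXP : S_EXP) (hBND : S_BND)
    [MeasurableSpace G] [BorelSpace G] {β : ℝ} {μ : Measure (Cf G D L)} (hsh : Shf G D L β μ)
    {X : Mt N} {γ : ℝ → G} (hγ : Grp X γ) (hX : ‖X‖ ≤ 1) {V : Finset (Site D)} {ω : SF D L}
    (hω0 : ∀ x, x ∉ V → ω x = 0) {s : ℝ} (hs : 1 ≤ s) (hD : (D : ℝ) ≤ s) (hL : (L : ℝ) ≤ s)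
    (hN : (N : ℝ) ≤ s) (hV : (V.card : ℝ) ≤ s) (hω : ∀ x a, |ω x a| ≤ s) :
    Dir μ (fun σ : Cf G D L => Yf σ) (nu (clA V)) β (100 * s ^ 7) (cf ω X) (Tm ω X) (BL V ω X)
      (QL V ω X) (fun σ => ∑ x ∈ Ns V, dh ω X σ x) := by
  have := hsh.prob
  obtain ⟨b1, b2, b3, b4⟩ := hBND V ω X hs hD hL hV hω hX
  have hs0 : 0 ≤ s := by linarith
  have hsK : s ≤ 100 * s ^ 7 := by
    have : s ≤ s ^ 7 := le_self_pow₀ hs (by norm_num)
    have : 0 ≤ s ^ 7 := by positivity
    linarith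
  have hν := fun A : MF N D L => nu_nonneg (clA V) A
  have hYb : ∀ σ : Cf G D L, nu (clA V) (Yf σ) ≤ 2 * N := nu_Yf_le _
  have hN0 : (0 : ℝ) ≤ 2 * N := by positivity
  -- the derivative of the energy
  have mH : Measurable fun σ : Cf G D L => ∑ x ∈ Ns V, dh ω X σ x :=
    Finset.measurable_fun_sum _ fun x _ => (hDH X ω x).2
  have dH : ∀ σ : Cf G D L, HasDerivAt (fun t => ∑ x ∈ Ns V, hx (vt γ ω t * σ) x)
      (∑ x ∈ Ns V, dh ω X σ x) 0 := fun σ =>
    HasDerivAt.fun_sum fun x _ => (hDH X ω x).1 γ hγ σ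
  have bH : ∃ C : ℝ, ∀ σ : Cf G D L, |∑ x ∈ Ns V, dh ω X σ x| ≤ C := by
    refine ⟨100 * s ^ 7 * (2 * N) ^ 3 + 100 * s ^ 7 * (2 * N) + 100 * s ^ 7 * (2 * N) * (2 * N),
      fun σ => ?_⟩
    have h1 := hEXP V ω X σ hs hD hL hN hV hω hX
    have h2 := b1 (Yf σ)
    have h3 := b2 (Yf σ) (Yf σ)
    have h4 := hYb σ
    have h0 := hν (Yf σ)
    have hK : 0 ≤ 100 * s ^ 7 := by positivity
    have e : ∑ x ∈ Ns V, dh ω X σ x = (∑ x ∈ Ns V, dh ω X σ x - BL V ω X (Yf σ) -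
        QL V ω X (Yf σ) (Yf σ)) + BL V ω X (Yf σ) + QL V ω X (Yf σ) (Yf σ) := by ring
    rw [e]
    refine (abs_add_le _ _).trans (add_le_add ((abs_add_le _ _).trans (add_le_add ?_ ?_)) ?_)
    · exact h1.trans (mul_le_mul_of_nonneg_left (pow_le_pow_left₀ h0 h4 3) hK)
    · exact h2.trans (mul_le_mul_of_nonneg_left h4 hK)
    · refine h3.trans ?_
      rw [mul_assoc, mul_assoc (100 * s ^ 7) (2 * (N : ℝ))]
      exact mul_le_mul_of_nonneg_left (mul_le_mul h4 h4 h0 hN0) hK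
  obtain ⟨CH, hCH⟩ := bH
  have z0 : ∀ σ : Cf G D L, vt γ ω 0 * σ = σ := fun σ => by rw [vt_zero hγ, one_mul]
  -- linear observables
  have L1 : ∀ l : MF N D L →ₗ[ℝ] ℝ, (∃ C, ∀ A, |l A| ≤ C * nu (clA V) A) →
      Measurable (fun σ : Cf G D L => l (Yf σ)) ∧
      Measurable (fun σ : Cf G D L => l (cf ω X + Tm ω X (Yf σ))) ∧
      (∃ C : ℝ, 0 ≤ C ∧ (∀ σ : Cf G D L, |l (Yf σ)| ≤ C) ∧
        ∀ σ : Cf G D L, |l (cf ω X + Tm ω X (Yf σ))| ≤ C) ∧
      ∀ σ : Cf G D L, HasDerivAt (fun t => l (Yf (vt γ ω t * σ))) (l (cf ω X + Tm ω X (Yf σ))) 0 := by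
    rintro l ⟨C, hC⟩
    obtain ⟨o1, o2⟩ := (hOBS (G := G) (W := clA V) (K := C)).1 l hC
    have hT := bdd_T b3 hC
    obtain ⟨o3, -⟩ := (hOBS (G := G) (W := clA V) (K := |C| * s)).1 (l.comp (Tm ω X)) hT
    have hC0 := abs_nonneg C
    have u1 : ∀ σ : Cf G D L, |l (Yf σ)| ≤ |C| * (2 * N) := fun σ =>
      (bdd_l hC _).trans (mul_le_mul_of_nonneg_left (hYb σ) hC0)
    have u2 : ∀ σ : Cf G D L, |l (cf ω X + Tm ω X (Yf σ))| ≤ |C| * s + |C| * s * (2 * N) := by
      intro σ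
      rw [map_add]
      refine (abs_add_le _ _).trans (add_le_add ?_ ?_)
      · exact (bdd_l hC _).trans (mul_le_mul_of_nonneg_left b4 hC0)
      · exact (hT (Yf σ)).trans (mul_le_mul_of_nonneg_left (hYb σ) (by positivity))
    refine ⟨o1, ?_, ⟨|C| * (2 * N) + (|C| * s + |C| * s * (2 * N)), by positivity, fun σ => ?_,
      fun σ => ?_⟩, o2 X γ hγ ω⟩
    · simp only [map_add]
      exact o3.const_add _
    · exact (u1 σ).trans (le_add_of_nonneg_right (by positivity))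
    · exact (u2 σ).trans (le_add_of_nonneg_left (by positivity))
  -- bilinear observables
  have Q1 : ∀ k : MF N D L →ₗ[ℝ] MF N D L →ₗ[ℝ] ℝ,
      (∃ C, ∀ A B, |k A B| ≤ C * nu (clA V) A * nu (clA V) B) →
      Measurable (fun σ : Cf G D L => k (Yf σ) (Yf σ)) ∧
      Measurable (fun σ : Cf G D L => k (cf ω X + Tm ω X (Yf σ)) (Yf σ) +
        k (Yf σ) (cf ω X + Tm ω X (Yf σ))) ∧
      (∃ C : ℝ, 0 ≤ C ∧ (∀ σ : Cf G D L, |k (Yf σ) (Yf σ)| ≤ C) ∧
        ∀ σ : Cf G D L, |k (cf ω X + Tm ω X (Yf σ)) (Yf σ) +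
          k (Yf σ) (cf ω X + Tm ω X (Yf σ))| ≤ C) ∧
      ∀ σ : Cf G D L, HasDerivAt (fun t => k (Yf (vt γ ω t * σ)) (Yf (vt γ ω t * σ)))
        (k (cf ω X + Tm ω X (Yf σ)) (Yf σ) + k (Yf σ) (cf ω X + Tm ω X (Yf σ))) 0 := by
    rintro k ⟨C, hC⟩
    obtain ⟨o1, o2⟩ := (hOBS (G := G) (W := clA V) (K := C)).2 k hC
    have hC0 := abs_nonneg C
    have hC' := bdd_q hC
    have m1 : Measurable fun σ : Cf G D L => k (cf ω X) (Yf σ) :=
      ((hOBS (G := G) (W := clA V) (K := |C| * s)).1 (k (cf ω X)) fun A => by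
        refine (hC' _ _).trans ?_
        exact mul_le_mul_of_nonneg_right (mul_le_mul_of_nonneg_left b4 hC0) (hν A)).1
    have m2 : Measurable fun σ : Cf G D L => k (Yf σ) (cf ω X) :=
      ((hOBS (G := G) (W := clA V) (K := |C| * s)).1 (k.flip (cf ω X)) fun A => by
        rw [LinearMap.flip_apply]
        refine (hC' _ _).trans ?_
        calc |C| * nu (clA V) A * nu (clA V) (cf ω X) ≤ |C| * nu (clA V) A * s :=
              mul_le_mul_of_nonneg_left b4 (mul_nonneg hC0 (hν A))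
          _ = _ := by ring).1
    have m3 : Measurable fun σ : Cf G D L => k (Tm ω X (Yf σ)) (Yf σ) :=
      ((hOBS (G := G) (W := clA V) (K := |C| * s)).2 (k.comp (Tm ω X)) fun A B => by
        rw [LinearMap.comp_apply]
        refine (hC' _ _).trans (mul_le_mul_of_nonneg_right ?_ (hν B))
        rw [mul_assoc]
        exact mul_le_mul_of_nonneg_left (b3 A) hC0).1
    have m4 : Measurable fun σ : Cf G D L => k (Yf σ) (Tm ω X (Yf σ)) :=
      ((hOBS (G := G) (W := clA V) (K := |C| * s)).2 (k.compl₂ (Tm ω X)) fun A B => by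
        rw [LinearMap.compl₂_apply]
        refine (hC' _ _).trans ?_
        calc |C| * nu (clA V) A * nu (clA V) (Tm ω X B) ≤
              |C| * nu (clA V) A * (s * nu (clA V) B) :=
              mul_le_mul_of_nonneg_left (b3 B) (mul_nonneg hC0 (hν A))
          _ = _ := by ring).1
    have w1 : ∀ σ : Cf G D L, nu (clA V) (cf ω X + Tm ω X (Yf σ)) ≤ s + s * (2 * N) := by
      intro σ
      refine nu_le (by positivity) fun x hx a => ?_
      rw [Pi.add_apply, Pi.add_apply]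
      refine (norm_add_le _ _).trans (add_le_add ((le_nu _ hx a).trans b4) ?_)
      exact (le_nu _ hx a).trans ((b3 _).trans (mul_le_mul_of_nonneg_left (hYb σ) hs0))
    have g : ∀ A B : MF N D L, ∀ x y : ℝ, nu (clA V) A ≤ x → nu (clA V) B ≤ y →
        |k A B| ≤ |C| * x * y := by
      intro A B x y h1 h2
      refine (hC' A B).trans ?_
      have hx0 := (hν A).trans h1
      exact mul_le_mul (mul_le_mul_of_nonneg_left h1 hC0) h2 (hν B) (by positivity)
    refine ⟨o1, ?_, ⟨|C| * (2 * N) * (2 * N) + (|C| * (s + s * (2 * N)) * (2 * N) +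
      |C| * (2 * N) * (s + s * (2 * N))), by positivity, fun σ => ?_, fun σ => ?_⟩, o2 X γ hγ ω⟩
    · simp only [map_add, LinearMap.add_apply]
      exact (m1.add m3).add (m2.add m4)
    · exact (g _ _ _ _ (hYb σ) (hYb σ)).trans (le_add_of_nonneg_right (by positivity))
    · refine le_trans ((abs_add_le _ _).trans (add_le_add (g _ _ _ _ (w1 σ) (hYb σ))
        (g _ _ _ _ (hYb σ) (w1 σ)))) (le_add_of_nonneg_left (by positivity))
  refine ⟨b4.trans hsK, fun A => (b3 A).trans (mul_le_mul_of_nonneg_right hsK (hν A)), b1, b2, mH,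
    fun σ => hEXP V ω X σ hs hD hL hN hV hω hX, ?_, ?_, ?_⟩
  · intro l hl
    obtain ⟨m1, m2, ⟨C, hC0, c1, c2⟩, d⟩ := L1 l hl
    exact hSD hsh hγ hω0 (C := max C CH) m1 m2 mH (fun σ => (c1 σ).trans (le_max_left _ _))
      (fun σ => (c2 σ).trans (le_max_left _ _)) (fun σ => (hCH σ).trans (le_max_right _ _)) d dH
  · intro l l' hl hl'
    obtain ⟨m1, m2, ⟨C, hC0, c1, c2⟩, d⟩ := L1 l hl
    obtain ⟨m1', m2', ⟨C', hC0', c1', c2'⟩, d'⟩ := L1 l' hl'
    refine hSD hsh hγ hω0 (C := max (C * C' + C * C') CH) (m1.mul m1')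
      ((m2.mul m1').add (m1.mul m2')) mH (fun σ => le_trans ?_ (le_max_left _ _))
      (fun σ => le_trans ?_ (le_max_left _ _)) (fun σ => (hCH σ).trans (le_max_right _ _))
      (fun σ => ?_) dH
    · rw [abs_mul]
      exact (mul_le_mul (c1 σ) (c1' σ) (abs_nonneg _) hC0).trans
        (le_add_of_nonneg_right (by positivity))
    · refine (abs_add_le _ _).trans (add_le_add ?_ ?_)
      · rw [abs_mul]
        exact mul_le_mul (c2 σ) (c1' σ) (abs_nonneg _) hC0
      · rw [abs_mul]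
        exact mul_le_mul (c1 σ) (c2' σ) (abs_nonneg _) hC0
    · have h := (d σ).mul (d' σ)
      simp only [z0] at h
      exact h
  · intro l k hl hk
    obtain ⟨m1, m2, ⟨C, hC0, c1, c2⟩, d⟩ := L1 l hl
    obtain ⟨m1', m2', ⟨C', hC0', c1', c2'⟩, d'⟩ := Q1 k hk
    refine hSD hsh hγ hω0 (C := max (C * C' + C * C') CH) (m1.mul m1')
      ((m2.mul m1').add (m1.mul m2')) mH (fun σ => le_trans ?_ (le_max_left _ _))
      (fun σ => le_trans ?_ (le_max_left _ _)) (fun σ => (hCH σ).trans (le_max_right _ _))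
      (fun σ => ?_) dH
    · rw [abs_mul]
      exact (mul_le_mul (c1 σ) (c1' σ) (abs_nonneg _) hC0).trans
        (le_add_of_nonneg_right (by positivity))
    · refine (abs_add_le _ _).trans (add_le_add ?_ ?_)
      · rw [abs_mul]
        exact mul_le_mul (c2 σ) (c1' σ) (abs_nonneg _) hC0
      · rw [abs_mul]
        exact mul_le_mul (c1 σ) (c2' σ) (abs_nonneg _) hC0
    · have h := (d σ).mul (d' σ)
      simp only [z0] at h
      exact h

end

end Pool.Agent.H586.GLU
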