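import Pool.Agent.H586.GLU.Lim
import Pool.Agent.H586.SLB.Fin
import Pool.Agent.H34.GLU.Dh
import Pool.Agent.H960.GLU.Sd
import Pool.Agent.H297.GLU.Obs
import Pool.Agent.H167.GLU.Exp
import Pool.Agent.H376.GLU.Bnd
import Pool.Agent.H23.GLU.Pert
import Pool.Agent.H115.GLU.Pert2
import Pool.Agent.H97.GLU.Alg
import Pool.Agent.H390.GLU.Rs
import Pool.Agent.H353.GLU.En
import Pool.Agent.H376.GLU.Skew
import Pool.Agent.H189.GLU.Asy

/-!
# The first correction to the continuum limit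
-/

set_option autoImplicit false
set_option linter.unusedSectionVars false
set_option linter.unusedVariables false

open MeasureTheory Matrix Finset Filter Topology
open scoped Matrix.Norms.Frobenius

namespace Pool.Agent.H586.GLU

open Pool.Agent.N990 hiding CB CB_nonneg dd_le
open Pool.Agent.N109.Slab
open Pool.Agent.N990.C hiding ext
open Pool.Agent.N839.C (rs rs_supp)
open Pool.Agent.N986.SL hiding box
open Pool.Agent.N986.PB

noncomputable section

variable {N D : ℕ} {G : Subgroup (UU N)} [MeasurableSpace G] [BorelSpace G]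

/-- a common box -/
lemma supp_box {φ : Fin 3 → Pt D → Fin D → ℝ} (h : ∀ j, IsTest (φ j)) : ∃ K : ℕ,
    ∀ j, ∀ L : ℕ, 1 ≤ L → ∀ x, x ∉ box D (K * L) → (rs L (φ j) : SF D L) x = 0 := by
  choose R hR using fun j => rs_supp (h j)
  refine ⟨∑ j, R j, fun j L hL x hx => hR j L hL x fun hx2 => hx ?_⟩
  rw [← Pool.Agent.N109.CL.box_eq_Icc] at hx2
  refine box_mono ?_ hx2
  exact Nat.mul_le_mul_right _ (Finset.single_le_sum (f := R) (fun _ _ => Nat.zero_le _)
    (Finset.mem_univ j))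

/-- the moments of the axial field -/
theorem axial_map (hG : IsClosed (G : Set (UU N))) (μ : Measure G) [IsProbabilityMeasure μ]
    [μ.IsMulLeftInvariant] {L : ℕ} {β : ℝ} {P : Measure (Link D L → G)}
    (hP : Dlr μ chi β P) : AxGibbs μ chi β (P.map ax) := by
  have : CompactSpace G := isCompact_iff_compactSpace.1 hG.isCompact
  have : SecondCountableTopology (N990.UU N) := TopologicalSpace.Subtype.secondCountableTopology _
  have : SecondCountableTopology G := TopologicalSpace.Subtype.secondCountableTopology _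
  have : μ.IsMulRightInvariant := right_invariant μ
  have hb2 : ∀ p : G, |chi p| ≤ 2 * N := by
    intro p
    have h2 := N990.norm_mt_sub_one_sq p
    have h3 := chi_mul_inv (p) (1 : G)
    rw [inv_one, mul_one, N990.mt_one] at h3
    have h4 : ‖N990.mt p - 1‖ ^ 2 ≤ 4 * N := h2
    rw [h3, abs_of_nonneg (by positivity)]
    linarith
  exact (Dlr.gibbs chi_cont hP).axial chi_conj chi_cont.measurable (b := 2 * N) hb2

lemma int_ax {L : ℕ} (P : Measure (Link D L → G)) {F : Cf G D L → ℝ} (hF : Measurable F) :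
    ∫ σ, F σ ∂(P.map ax) = ∫ U, F (ax U) ∂P :=
  integral_map ax_meas.aemeasurable hF.aestronglyMeasurable

/-- the amputated field -/
def am {L : ℕ} (b : ℝ) (K : ℕ) (φ : Pt D → Fin D → ℝ) (X : Mt N) (σ : Cf G D L) : ℝ :=
  Real.sqrt b * BL (box D (K * L)) (om L φ) X (Yf σ)

lemma am_meas {L : ℕ} (b : ℝ) (K : ℕ) (φ : Pt D → Fin D → ℝ) (X : Mt N) :
    Measurable fun σ : Cf G D L => am b K φ X σ := by
  have h : Measurable fun σ : Cf G D L => BL (box D (K * L)) (om L φ) X (Yf σ) := by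
    show Measurable fun σ : Cf G D L => ∑ x ∈ Ns (box D (K * L)),
      bx (om L φ) (fun y b => ip X (Yf σ y b)) x
    exact Finset.measurable_fun_sum _ fun x _ => bx_meas X (om L φ) x
  exact h.const_mul _

/-- **The first correction to the continuum limit** -/
theorem gluon (hG : IsClosed (G : Set (UU N))) (μ : Measure G) [IsProbabilityMeasure μ]
    [μ.IsMulLeftInvariant] (D : ℕ) : ∃ K₀ : ℕ, ∀ X : Fin 3 → Mt N,
    (∀ j, ∀ t : ℝ, ∃ g : G, mt g = NormedSpace.exp (t • X j)) →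
    (∀ i j, ip (X i) (X j) = if i = j then 1 else 0) →
    ∀ φ : Fin 3 → Pt D → Fin D → ℝ, (∀ j, IsTest (φ j)) → ∀ K : ℕ,
    (∀ j, ∀ L : ℕ, 1 ≤ L → ∀ x, x ∉ box D (K * L) → (rs L (φ j) : SF D L) x = 0) →
    ∀ b : ℕ → ℝ, (∀ᶠ L : ℕ in atTop, (L : ℝ) ^ K₀ ≤ b L) →
    ∀ P : (L : ℕ) → Measure (Link D L → G), (∀ᶠ L : ℕ in atTop, Dlr μ chi (b L) (P L)) →
    (∀ i j, Tendsto (fun L : ℕ => ∫ U, am (b L) K (φ i) (X i) (ax U) *
      am (b L) K (φ j) (X j) (ax U) ∂P L) atTop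
      (𝓝 (if i = j then ∫ p in Slb D, ec (φ i) (φ j) p else 0))) ∧
    Tendsto (fun L : ℕ => Real.sqrt (b L) * (L : ℝ) ^ (((D : ℝ) - 3) / 2) * ∫ U,
      am (b L) K (φ 0) (X 0) (ax U) * am (b L) K (φ 1) (X 1) (ax U) *
      am (b L) K (φ 2) (X 2) (ax U) ∂P L) atTop
      (𝓝 ((trace (X 0 * X 1 * X 2)).re * ((∫ p in Slb D, vc (φ 0) (φ 1) (φ 2) p) +
        (∫ p in Slb D, vc (φ 1) (φ 2) (φ 0) p) + ∫ p in Slb D, vc (φ 2) (φ 0) (φ 1) p))) := by
  obtain ⟨k1, h1⟩ := gluonL H34.GLU.dh H960.GLU.sd H297.GLU.obs H167.GLU.expand H376.GLU.bnd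
    H23.GLU.pert H97.GLU.alg H390.GLU.rsum H376.GLU.skew H189.GLU.asy hG μ D
  obtain ⟨k2, h2⟩ := secondL H34.GLU.dh H960.GLU.sd H297.GLU.obs H167.GLU.expand H376.GLU.bnd
    H115.GLU.pert2 H353.GLU.en H189.GLU.asy hG μ D
  refine ⟨k1 + k2, fun X hX hort φ hφ K hK b hb P hP => ?_⟩
  have hb1 : ∀ᶠ L : ℕ in atTop, (L : ℝ) ^ k1 ≤ b L := by
    filter_upwards [hb, eventually_ge_atTop 1] with L h1 h2
    exact (pow_le_pow_right₀ (by exact_mod_cast h2) (by omega)).trans h1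
  have hb2 : ∀ᶠ L : ℕ in atTop, (L : ℝ) ^ k2 ≤ b L := by
    filter_upwards [hb, eventually_ge_atTop 1] with L h1 h2
    exact (pow_le_pow_right₀ (by exact_mod_cast h2) (by omega)).trans h1
  have hQ : ∀ᶠ L : ℕ in atTop, AxGibbs μ chi (b L) ((P L).map ax) := by
    filter_upwards [hP] with L hL
    exact axial_map hG μ hL
  have g1 := h1 X hX hort φ hφ K hK b hb1 (fun L => (P L).map ax) hQ
  have g2 := h2 X hX hort φ hφ K hK b hb2 (fun L => (P L).map ax) hQ
  constructor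
  · intro i j
    have g3 := g2 i j
    have e : ∀ L : ℕ, ∫ σ, am (b L) K (φ i) (X i) σ * am (b L) K (φ j) (X j) σ ∂((P L).map ax) =
        ∫ U, am (b L) K (φ i) (X i) (ax U) * am (b L) K (φ j) (X j) (ax U) ∂P L := fun L =>
      int_ax (P L) ((am_meas (b L) K (φ i) (X i)).mul (am_meas (b L) K (φ j) (X j)))
    simp only [← e]
    exact g3
  · have e : ∀ L : ℕ, ∫ σ, am (b L) K (φ 0) (X 0) σ * am (b L) K (φ 1) (X 1) σ *
        am (b L) K (φ 2) (X 2) σ ∂((P L).map ax) =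
        ∫ U, am (b L) K (φ 0) (X 0) (ax U) * am (b L) K (φ 1) (X 1) (ax U) *
          am (b L) K (φ 2) (X 2) (ax U) ∂P L := fun L =>
      int_ax (P L) (((am_meas (b L) K (φ 0) (X 0)).mul (am_meas (b L) K (φ 1) (X 1))).mul
        (am_meas (b L) K (φ 2) (X 2)))
    simp only [← e]
    exact g1

end

end Pool.Agent.H586.GLU
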