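import Pool.Agent.H586.GLU.Third
import Pool.Agent.H586.SLB.Mb

/-!
# The continuum limit of the second and the third moment
-/

set_option autoImplicit false
set_option linter.unusedSectionVars false
set_option linter.unusedVariables false

open MeasureTheory Matrix Finset Filter Topology
open scoped Matrix.Norms.Frobenius

namespace Pool.Agent.H586.GLU

open Pool.Agent.N990 hiding CB CB_nonneg dd_le
open Pool.Agent.N109.Slab
open Pool.Agent.N990.C hiding ext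
open Pool.Agent.N839.C (rs rs_supp)
open Pool.Agent.N986.SL (AxGibbs chi)

noncomputable section

variable {N D : ℕ} {G : Subgroup (UU N)}

/-- the power of the lattice spacing of the test fields -/
def lam (D L : ℕ) : ℝ := (L : ℝ) ^ ((1 - (D : ℝ)) / 2)

/-- the test field of the lattice -/
def om (L : ℕ) (φ : Pt D → Fin D → ℝ) : SF D L := lam D L • rs L φ

lemma dp_smul {L : ℕ} (c : ℝ) (u : SF D L) (x : Site D) (p : (Fin D × Fin D) × Fin L) :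
    dp (c • u) x p = c * dp u x p := by
  unfold dp
  simp only [Pi.smul_apply, smul_eq_mul]
  ring

lemma wd_smul {L : ℕ} (c : ℝ) (u v : SF D L) (x : Site D) (p : (Fin D × Fin D) × Fin L) :
    wd (c • u) (c • v) x p = c ^ 2 * wd u v x p := by
  unfold wd
  simp only [Pi.smul_apply, smul_eq_mul]
  ring

lemma lam3 {L : ℕ} (hL : 1 ≤ L) : (L : ℝ) ^ (((D : ℝ) - 3) / 2) * lam D L ^ 3 = ((L : ℝ) ^ D)⁻¹ := by
  have hL0 : (0 : ℝ) < L := by exact_mod_cast hL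
  unfold lam
  rw [← Real.rpow_natCast, ← Real.rpow_natCast, ← Real.rpow_mul hL0.le, ← Real.rpow_add hL0,
    ← Real.rpow_neg hL0.le]
  congr 1
  push_cast
  ring

lemma lam2 {L : ℕ} (hL : 1 ≤ L) : lam D L ^ 2 = ((L : ℝ) ^ D)⁻¹ * L := by
  have hL0 : (0 : ℝ) < L := by exact_mod_cast hL
  unfold lam
  rw [← Real.rpow_natCast, ← Real.rpow_natCast, ← Real.rpow_mul hL0.le,
    ← Real.rpow_neg hL0.le]
  nth_rewrite 3 [← Real.rpow_one (L : ℝ)]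
  rw [← Real.rpow_add hL0]
  congr 1
  push_cast
  ring

lemma lam_le {L : ℕ} (hL : 1 ≤ L) : 0 ≤ lam D L ∧ lam D L ≤ L := by
  have hL1 : (1 : ℝ) ≤ L := by exact_mod_cast hL
  unfold lam
  refine ⟨by positivity, ?_⟩
  calc (L : ℝ) ^ ((1 - (D : ℝ)) / 2) ≤ (L : ℝ) ^ (1 : ℝ) := by
        refine Real.rpow_le_rpow_of_exponent_le hL1 ?_
        have : (0 : ℝ) ≤ D := Nat.cast_nonneg _
        linarith
    _ = L := Real.rpow_one _

/-- the powers of the coupling -/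
lemma pow_le' {β : ℝ} (hβ : 1 ≤ β) {M : ℝ} (hM : M = β ^ (-1 / 2 + 1 / 100 : ℝ) / 2) :
    0 ≤ M ∧ M + β * M ^ 3 + β ^ 2 * M ^ 5 ≤ 3 * β ^ (-(9 / 20) : ℝ) := by
  have hβ0 : 0 < β := by linarith
  have h0 : 0 ≤ β ^ (-1 / 2 + 1 / 100 : ℝ) := by positivity
  have hM0 : 0 ≤ M := by rw [hM]; positivity
  have hM1 : M ≤ β ^ (-(49 / 100) : ℝ) := by
    rw [hM]
    have : (-1 / 2 + 1 / 100 : ℝ) = -(49 / 100) := by norm_num
    rw [this]
    have : 0 ≤ β ^ (-(49 / 100) : ℝ) := by positivity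
    linarith
  refine ⟨hM0, ?_⟩
  have e1 : M ≤ β ^ (-(9 / 20) : ℝ) :=
    hM1.trans (Real.rpow_le_rpow_of_exponent_le hβ (by norm_num))
  have e2 : β * M ^ 3 ≤ β ^ (-(9 / 20) : ℝ) := by
    calc β * M ^ 3 ≤ β * (β ^ (-(49 / 100) : ℝ)) ^ 3 :=
          mul_le_mul_of_nonneg_left (pow_le_pow_left₀ hM0 hM1 3) hβ0.le
      _ = β ^ (-(47 / 100) : ℝ) := by
          rw [← Real.rpow_natCast, ← Real.rpow_mul hβ0.le]
          nth_rewrite 1 [← Real.rpow_one β]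
          rw [← Real.rpow_add hβ0]
          norm_num
      _ ≤ _ := Real.rpow_le_rpow_of_exponent_le hβ (by norm_num)
  have e3 : β ^ 2 * M ^ 5 ≤ β ^ (-(9 / 20) : ℝ) := by
    calc β ^ 2 * M ^ 5 ≤ β ^ 2 * (β ^ (-(49 / 100) : ℝ)) ^ 5 :=
          mul_le_mul_of_nonneg_left (pow_le_pow_left₀ hM0 hM1 5) (by positivity)
      _ = β ^ (-(9 / 20) : ℝ) := by
          rw [← Real.rpow_natCast, ← Real.rpow_natCast, ← Real.rpow_mul hβ0.le,
            ← Real.rpow_add hβ0]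
          norm_num
  linarith

/-- the bound of all the parameters -/
lemma s_ok {C : ℝ} {K : ℕ} (h1 : 1 ≤ C) (hD : (D : ℝ) ≤ C) (hN : (N : ℝ) ≤ C)
    (hK : (2 * (K : ℝ) + 1) ^ D ≤ C) {L : ℕ} (hL : 1 ≤ L) {s : ℝ} (hs : s = C * (L : ℝ) ^ (D + 1)) :
    1 ≤ s ∧ (D : ℝ) ≤ s ∧ (L : ℝ) ≤ s ∧ (N : ℝ) ≤ s ∧ ((box D (K * L)).card : ℝ) ≤ s ∧
      ∀ (φ : Pt D → Fin D → ℝ) (B : ℝ), (∀ p i, |φ p i| ≤ B) → B ≤ C →
        ∀ x a, |(om L φ : SF D L) x a| ≤ s := by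
  have hL1 : (1 : ℝ) ≤ L := by exact_mod_cast hL
  have hp1 : (1 : ℝ) ≤ (L : ℝ) ^ (D + 1) := one_le_pow₀ hL1
  have hpL : (L : ℝ) ≤ (L : ℝ) ^ (D + 1) := le_self_pow₀ hL1 (by omega)
  have hC0 : 0 ≤ C := by linarith
  have g : ∀ t : ℝ, 0 ≤ t → t ≤ C → t ≤ s := by
    intro t h0 ht
    rw [hs]
    nlinarith
  refine ⟨g 1 (by norm_num) h1, g _ (Nat.cast_nonneg _) hD, ?_, g _ (Nat.cast_nonneg _) hN, ?_, ?_⟩
  · rw [hs]; nlinarith
  · rw [hs, box_card]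
    push_cast
    calc (2 * ((K : ℝ) * L) + 1) ^ D ≤ ((2 * (K : ℝ) + 1) * L) ^ D := by
          refine pow_le_pow_left₀ (by positivity) ?_ D
          nlinarith
      _ = (2 * (K : ℝ) + 1) ^ D * (L : ℝ) ^ D := mul_pow _ _ _
      _ ≤ C * (L : ℝ) ^ (D + 1) := by
          refine mul_le_mul hK ?_ (by positivity) hC0
          exact pow_le_pow_right₀ hL1 (by omega)
  · intro φ B hB hBC x a
    obtain ⟨l0, l1⟩ := lam_le (D := D) hL
    have e : (om L φ : SF D L) x a = lam D L * rs L φ x a := rfl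
    rw [e, abs_mul, abs_of_nonneg l0, hs]
    have h2 : |(rs L φ : SF D L) x a| ≤ B := hB _ _
    calc lam D L * |(rs L φ : SF D L) x a| ≤ L * C :=
          mul_le_mul l1 (h2.trans hBC) (abs_nonneg _) (by positivity)
      _ = C * L := mul_comm _ _
      _ ≤ _ := mul_le_mul_of_nonneg_left hpL hC0

lemma om_out {K : ℕ} {φ : Pt D → Fin D → ℝ} {L : ℕ}
    (h : ∀ x, x ∉ box D (K * L) → (rs L φ : SF D L) x = 0) {x : Site D} (hx : x ∉ box D (K * L)) :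
    (om L φ : SF D L) x = 0 := by
  show lam D L • (rs L φ : SF D L) x = 0
  rw [h x hx, smul_zero]

/-- the number of the columns -/
lemma cl_card {V : Finset (Site D)} {L : ℕ} {s : ℝ} (hs : 1 ≤ s) (hD : (D : ℝ) ≤ s) (hL : (L : ℝ) ≤ s)
    (hV : (V.card : ℝ) ≤ s) : ((clA V).card : ℝ) * (D * L) ≤ 4 * s ^ 5 := by
  have h1 : ((clA V).card : ℝ) ≤ (D + 1) * ((D + 1) * V.card) := Dt.clR V
  have hD0 : (0 : ℝ) ≤ D := Nat.cast_nonneg _
  have h2 : ((clA V).card : ℝ) ≤ 4 * s ^ 3 := by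
    refine h1.trans ?_
    have h3 : (D : ℝ) + 1 ≤ 2 * s := by linarith
    calc ((D : ℝ) + 1) * ((D + 1) * V.card) ≤ (2 * s) * ((2 * s) * s) := by
          gcongr
      _ = _ := by ring
  calc ((clA V).card : ℝ) * (D * L) ≤ (4 * s ^ 3) * (s * s) := by gcongr
    _ = _ := by ring

variable [MeasurableSpace G] [BorelSpace G]

/-- the properties of the lattice theories -/
theorem setup (hG : IsClosed (G : Set (UU N))) (μ : Measure G) [IsProbabilityMeasure μ]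
    [μ.IsMulLeftInvariant] (D : ℕ) : ∃ n₀ : ℕ, ∀ b : ℕ → ℝ,
    (∀ᶠ L : ℕ in atTop, (L : ℝ) ^ n₀ ≤ b L) → ∀ Q : (L : ℕ) → Measure (Cf G D L),
    (∀ᶠ L : ℕ in atTop, AxGibbs μ chi (b L) (Q L)) → ∀ᶠ L : ℕ in atTop, 1 ≤ L ∧ 1 ≤ b L ∧
      Shf G D L (b L) (Q L) ∧ ∀ y a, (Q L).real {σ : Cf G D L |
        b L ^ (-1 / 2 + 1 / 100 : ℝ) / 2 < ‖Yf σ y a‖} ≤ Real.exp (-(b L ^ (1 / 200 : ℝ))) := by
  have : CompactSpace G := isCompact_iff_compactSpace.1 hG.isCompact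
  have hM := Pool.Agent.H586.SLB.mbU hG μ D (1 / 100) (by norm_num)
  obtain ⟨n₀, hn₀⟩ := Pool.Agent.N990.Mach.fu_iff.1 hM
  refine ⟨n₀ + 2, fun b hb Q hQ => ?_⟩
  filter_upwards [Pool.Agent.N109.CL.ev_Un hb (le_refl (1 : ℝ)), hQ, hb, eventually_ge_atTop 1]
    with L h1 h2 h3 h4
  have hL1 : (1 : ℝ) ≤ L := by exact_mod_cast h4
  refine ⟨h4, (one_le_pow₀ hL1).trans h3, shf_of_ax h2, fun y a => ?_⟩
  have h5 := hn₀ _ h1 L h4 (by simp) (Q L) h2 y a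
  have e : (1 / 100 / 2 : ℝ) = 1 / 200 := by norm_num
  rw [e] at h5
  exact h5

omit [MeasurableSpace G] [BorelSpace G] in
/-- one-parameter groups -/
lemma exists_grp {X : Mt N} (hX : ∀ t : ℝ, ∃ g : G, mt g = NormedSpace.exp (t • X)) :
    ∃ γ : ℝ → G, Grp X γ := by
  choose γ hγ using hX
  exact ⟨γ, hγ⟩

lemma norm_ortho {X : Mt N} (h : ip X X = 1) : ‖X‖ ≤ 1 := by
  rw [ip_self] at h
  have h0 := norm_nonneg X
  nlinarith [sq_nonneg (‖X‖ - 1)]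

/-- the density of the vertex -/
def vc (a b c : Pt D → Fin D → ℝ) (p : Pt D) : ℝ := ∑ i, ∑ j, if i < j then
  (pd a (eh i) j p - pd a (eh j) i p) * (2 * (b p i * c p j - b p j * c p i)) else 0

/-- the density of the energy form -/
def ec (a b : Pt D → Fin D → ℝ) (p : Pt D) : ℝ :=
  (∑ i, pd a (ez D) i p * pd b (ez D) i p) + ∑ i, ∑ j, if i < j then
    (pd a (eh i) j p - pd a (eh j) i p) * (pd b (eh i) j p - pd b (eh j) i p) else 0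

/-- a test field is bounded -/
lemma test_bound {φ : Pt D → Fin D → ℝ} (h : IsTest φ) : ∃ B : ℝ, 0 ≤ B ∧ ∀ p i, |φ p i| ≤ B := by
  obtain ⟨C, R, hC, -, h1, -, -⟩ := Pool.Agent.N839.C.test_bd h
  exact ⟨C, hC, h1⟩

/-- **The third moment** in the continuum limit -/
theorem gluonL (hDH : S_DH) (hSD : S_SD) (hOBS : S_OBS) (hEXP : S_EXP) (hBND : S_BND)
    (hPERT : S_PERT) (hALG : S_ALG) (hRS : S_RS) (hSKEW : S_SKEW) (hASY : S_ASY)
    (hG : IsClosed (G : Set (UU N))) (μ : Measure G) [IsProbabilityMeasure μ]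
    [μ.IsMulLeftInvariant] (D : ℕ) : ∃ K₀ : ℕ, ∀ X : Fin 3 → Mt N,
    (∀ j, ∀ t : ℝ, ∃ g : G, mt g = NormedSpace.exp (t • X j)) →
    (∀ i j, ip (X i) (X j) = if i = j then 1 else 0) →
    ∀ φ : Fin 3 → Pt D → Fin D → ℝ, (∀ j, IsTest (φ j)) → ∀ K : ℕ,
    (∀ j, ∀ L : ℕ, 1 ≤ L → ∀ x, x ∉ box D (K * L) → (rs L (φ j) : SF D L) x = 0) →
    ∀ b : ℕ → ℝ, (∀ᶠ L : ℕ in atTop, (L : ℝ) ^ K₀ ≤ b L) →
    ∀ Q : (L : ℕ) → Measure (Cf G D L), (∀ᶠ L : ℕ in atTop, AxGibbs μ chi (b L) (Q L)) →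
    Tendsto (fun L : ℕ => Real.sqrt (b L) * (L : ℝ) ^ (((D : ℝ) - 3) / 2) * ∫ σ,
      (Real.sqrt (b L) * BL (box D (K * L)) (om L (φ 0)) (X 0) (Yf σ)) *
      (Real.sqrt (b L) * BL (box D (K * L)) (om L (φ 1)) (X 1) (Yf σ)) *
      (Real.sqrt (b L) * BL (box D (K * L)) (om L (φ 2)) (X 2) (Yf σ)) ∂Q L) atTop
      (𝓝 ((trace (X 0 * X 1 * X 2)).re * ((∫ p in Slb D, vc (φ 0) (φ 1) (φ 2) p) +
        (∫ p in Slb D, vc (φ 1) (φ 2) (φ 0) p) + ∫ p in Slb D, vc (φ 2) (φ 0) (φ 1) p))) := by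
  obtain ⟨n₀, hn₀⟩ := setup hG μ D
  obtain ⟨k, hk⟩ : ∃ k : ℕ, k = D + 68 * (D + 1) := ⟨_, rfl⟩
  obtain ⟨k₀, hk₀⟩ := hASY k
  refine ⟨n₀ + k₀, fun X hX hort φ hφ K hK b hb Q hQ => ?_⟩
  have hb1 : ∀ᶠ L : ℕ in atTop, (L : ℝ) ^ n₀ ≤ b L := by
    filter_upwards [hb, eventually_ge_atTop 1] with L h1 h2
    exact (pow_le_pow_right₀ (by exact_mod_cast h2) (by omega)).trans h1
  have hb2 : ∀ᶠ L : ℕ in atTop, (L : ℝ) ^ k₀ ≤ b L := by
    filter_upwards [hb, eventually_ge_atTop 1] with L h1 h2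
    exact (pow_le_pow_right₀ (by exact_mod_cast h2) (by omega)).trans h1
  have hset := hn₀ b hb1 Q hQ
  choose γ hγ using fun j => exists_grp (hX j)
  have hnX : ∀ j, ‖X j‖ ≤ 1 := fun j => norm_ortho (by rw [hort, if_pos rfl])
  have hsk : ∀ j, (X j)ᴴ = -X j := fun j => hSKEW (X j) (hX j)
  choose B hB0 hB using fun j => test_bound (hφ j)
  obtain ⟨C, hC⟩ : ∃ C : ℝ, C = 1 + D + N + (2 * (K : ℝ) + 1) ^ D + ∑ j, B j := ⟨_, rfl⟩
  have hD0 : (0 : ℝ) ≤ D := Nat.cast_nonneg _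
  have hN0 : (0 : ℝ) ≤ N := Nat.cast_nonneg _
  have hK0 : (0 : ℝ) ≤ (2 * (K : ℝ) + 1) ^ D := by positivity
  have hBs : 0 ≤ ∑ j, B j := Finset.sum_nonneg fun j _ => hB0 j
  have hBC : ∀ j, B j ≤ C := fun j => by
    have := Finset.single_le_sum (f := B) (fun j _ => hB0 j) (Finset.mem_univ j)
    rw [hC]; linarith
  -- the error
  obtain ⟨a1, -⟩ := hk₀ (20 * 100 ^ 9 * C ^ 68 * 3) b hb2
  obtain ⟨-, a2⟩ := hk₀ (20 * 100 ^ 9 * C ^ 68 * 4) b hb2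
  have hsum := a1.add a2
  rw [add_zero] at hsum
  -- the leading term
  have r1 := hRS (φ 0) (φ 1) (φ 2) (hφ 0) (hφ 1) (hφ 2) K fun L hL x hx =>
    ⟨hK 0 L hL x hx, hK 1 L hL x hx, hK 2 L hL x hx⟩
  have r2 := hRS (φ 1) (φ 2) (φ 0) (hφ 1) (hφ 2) (hφ 0) K fun L hL x hx =>
    ⟨hK 1 L hL x hx, hK 2 L hL x hx, hK 0 L hL x hx⟩
  have r3 := hRS (φ 2) (φ 0) (φ 1) (hφ 2) (hφ 0) (hφ 1) K fun L hL x hx =>
    ⟨hK 2 L hL x hx, hK 0 L hL x hx, hK 1 L hL x hx⟩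
  have hmain := ((r1.add r2).add r3).const_mul ((trace (X 0 * X 1 * X 2)).re)
  refine tendsto_of_tendsto_of_dist hmain ?_
  refine squeeze_zero' (Eventually.of_forall fun L => dist_nonneg) ?_ hsum
  filter_upwards [hset] with L hL
  obtain ⟨hL1, hbL, hsh, htail⟩ := hL
  have hL1' : (1 : ℝ) ≤ L := by exact_mod_cast hL1
  obtain ⟨s, hs⟩ : ∃ s : ℝ, s = C * (L : ℝ) ^ (D + 1) := ⟨_, rfl⟩
  obtain ⟨s1, s2, s3, s4, s5, s6⟩ := s_ok (N := N) (K := K) (by rw [hC]; linarith)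
    (by rw [hC]; linarith) (by rw [hC]; linarith) (by rw [hC]; linarith) hL1 hs
  obtain ⟨M, hM⟩ : ∃ M : ℝ, M = b L ^ (-1 / 2 + 1 / 100 : ℝ) / 2 := ⟨_, rfl⟩
  rw [← hM] at htail
  obtain ⟨hM0, hMp⟩ := pow_le' hbL hM
  obtain ⟨p0, hp0⟩ : ∃ p0 : ℝ, p0 = Real.exp (-(b L ^ (1 / 200 : ℝ))) := ⟨_, rfl⟩
  rw [← hp0] at htail
  have hp00 : 0 ≤ p0 := by rw [hp0]; exact (Real.exp_pos _).le
  have hb0 : 0 ≤ b L := by linarith
  have P : ∀ j, Par (box D (K * L)) (om L (φ j)) (X j) (γ j) s := fun j =>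
    ⟨hγ j, hnX j, fun x hx => om_out (hK j L hL1) hx, s6 (φ j) (B j) (hB j) (hBC j)⟩
  have h3 := third hDH hSD hOBS hEXP hBND hsh s1 s2 s3 s4 s5 hb0 hM0 hp00 htail hPERT hALG
    (P 0) (P 1) (P 2) (hsk 0) (hsk 1) (hsk 2) (by rw [hort]; simp) (by rw [hort]; simp)
    (by rw [hort]; simp)
  obtain ⟨c0, hc0⟩ : ∃ c0 : ℝ, c0 = (trace (X 0 * X 1 * X 2)).re := ⟨_, rfl⟩
  obtain ⟨I, hI⟩ : ∃ I : ℝ, I = ∫ σ, BL (box D (K * L)) (om L (φ 0)) (X 0) (Yf σ) *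
    BL (box D (K * L)) (om L (φ 1)) (X 1) (Yf σ) *
    BL (box D (K * L)) (om L (φ 2)) (X 2) (Yf σ) ∂Q L := ⟨_, rfl⟩
  have eI : ∫ σ, (Real.sqrt (b L) * BL (box D (K * L)) (om L (φ 0)) (X 0) (Yf σ)) *
      (Real.sqrt (b L) * BL (box D (K * L)) (om L (φ 1)) (X 1) (Yf σ)) *
      (Real.sqrt (b L) * BL (box D (K * L)) (om L (φ 2)) (X 2) (Yf σ)) ∂Q L =
      Real.sqrt (b L) ^ 3 * I := by
    rw [hI, ← integral_const_mul]
    refine integral_congr_ae (Eventually.of_forall fun σ => ?_)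
    simp only
    ring
  have eb : Real.sqrt (b L) * Real.sqrt (b L) ^ 3 = b L ^ 2 := by
    calc Real.sqrt (b L) * Real.sqrt (b L) ^ 3 = (Real.sqrt (b L) ^ 2) ^ 2 := by ring
      _ = b L ^ 2 := by rw [Real.sq_sqrt hb0]
  rw [← hI, ← hc0] at h3
  obtain ⟨l, hl⟩ : ∃ l : ℝ, l = (L : ℝ) ^ (((D : ℝ) - 3) / 2) := ⟨_, rfl⟩
  have hl0 : 0 ≤ l := by rw [hl]; positivity
  have hlD : l ≤ (L : ℝ) ^ D := by
    rw [hl, ← Real.rpow_natCast]
    refine Real.rpow_le_rpow_of_exponent_le hL1' ?_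
    linarith
  rw [eI, ← hc0, ← hl, dist_comm, Real.dist_eq]
  have e1 : Real.sqrt (b L) * l * (Real.sqrt (b L) ^ 3 * I) = l * (b L ^ 2 * I) := by
    rw [← eb]; ring
  have e2 : ((L : ℝ) ^ D)⁻¹ = l * lam D L ^ 3 := by rw [hl, lam3 hL1]
  have e3 : c0 * (((L : ℝ) ^ D)⁻¹ * ∑ x ∈ Ns (box D (K * L)), ∑ p ∈ plabs D L,
        dp (rs L (φ 0) : SF D L) x p * wd (rs L (φ 1) : SF D L) (rs L (φ 2)) x p +
      ((L : ℝ) ^ D)⁻¹ * ∑ x ∈ Ns (box D (K * L)), ∑ p ∈ plabs D L,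
        dp (rs L (φ 1) : SF D L) x p * wd (rs L (φ 2) : SF D L) (rs L (φ 0)) x p +
      ((L : ℝ) ^ D)⁻¹ * ∑ x ∈ Ns (box D (K * L)), ∑ p ∈ plabs D L,
        dp (rs L (φ 2) : SF D L) x p * wd (rs L (φ 0) : SF D L) (rs L (φ 1)) x p) =
      l * (c0 * ∑ x ∈ Ns (box D (K * L)), ∑ p ∈ plabs D L,
        (dp (om L (φ 0) : SF D L) x p * wd (om L (φ 1) : SF D L) (om L (φ 2)) x p +
        dp (om L (φ 1) : SF D L) x p * wd (om L (φ 2) : SF D L) (om L (φ 0)) x p +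
        dp (om L (φ 2) : SF D L) x p * wd (om L (φ 0) : SF D L) (om L (φ 1)) x p)) := by
    rw [e2]
    simp only [om, dp_smul, wd_smul, Finset.sum_add_distrib, Finset.mul_sum, mul_add]
    congr 1
    congr 1
    all_goals
      refine Finset.sum_congr rfl fun x _ => Finset.sum_congr rfl fun p _ => ?_
      ring
  rw [e3, e1, ← mul_sub, abs_mul, abs_of_nonneg hl0]
  refine (mul_le_mul hlD h3 (abs_nonneg _) (by positivity)).trans ?_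
  have hcard := cl_card (V := box D (K * L)) s1 s2 s3 s5
  have hq : 0 ≤ 1 + b L + b L ^ 2 := by positivity
  have hs0 : 0 ≤ s := by linarith
  calc (L : ℝ) ^ D * (20 * (100 * s ^ 7) ^ 9 * (M + b L * M ^ 3 + b L ^ 2 * M ^ 5 +
        (1 + b L + b L ^ 2) * (((clA (box D (K * L))).card : ℝ) * (D * L) * p0))) ≤
      (L : ℝ) ^ D * (20 * (100 * s ^ 7) ^ 9 * (3 * b L ^ (-(9 / 20) : ℝ) +
        (1 + b L + b L ^ 2) * (4 * s ^ 5 * p0))) := by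
        gcongr
    _ ≤ (L : ℝ) ^ D * (20 * (100 * s ^ 7) ^ 9 * (3 * b L ^ (-(9 / 20) : ℝ) * s ^ 5 +
        (1 + b L + b L ^ 2) * (4 * s ^ 5 * p0))) := by
        have h5 : 1 ≤ s ^ 5 := one_le_pow₀ s1
        have h6 : 0 ≤ 3 * b L ^ (-(9 / 20) : ℝ) := by positivity
        have h7 : 3 * b L ^ (-(9 / 20) : ℝ) ≤ 3 * b L ^ (-(9 / 20) : ℝ) * s ^ 5 :=
          le_mul_of_one_le_right h6 h5
        gcongr
    _ = _ := by
        rw [hs, hk, hp0]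
        ring

/-- **The second moment** in the continuum limit -/
theorem secondL (hDH : S_DH) (hSD : S_SD) (hOBS : S_OBS) (hEXP : S_EXP) (hBND : S_BND)
    (hPERT2 : S_PERT2) (hEN : S_EN) (hASY : S_ASY)
    (hG : IsClosed (G : Set (UU N))) (μ : Measure G) [IsProbabilityMeasure μ]
    [μ.IsMulLeftInvariant] (D : ℕ) : ∃ K₀ : ℕ, ∀ X : Fin 3 → Mt N,
    (∀ j, ∀ t : ℝ, ∃ g : G, mt g = NormedSpace.exp (t • X j)) →
    (∀ i j, ip (X i) (X j) = if i = j then 1 else 0) →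
    ∀ φ : Fin 3 → Pt D → Fin D → ℝ, (∀ j, IsTest (φ j)) → ∀ K : ℕ,
    (∀ j, ∀ L : ℕ, 1 ≤ L → ∀ x, x ∉ box D (K * L) → (rs L (φ j) : SF D L) x = 0) →
    ∀ b : ℕ → ℝ, (∀ᶠ L : ℕ in atTop, (L : ℝ) ^ K₀ ≤ b L) →
    ∀ Q : (L : ℕ) → Measure (Cf G D L), (∀ᶠ L : ℕ in atTop, AxGibbs μ chi (b L) (Q L)) →
    ∀ i j, Tendsto (fun L : ℕ => ∫ σ,
      (Real.sqrt (b L) * BL (box D (K * L)) (om L (φ i)) (X i) (Yf σ)) *
      (Real.sqrt (b L) * BL (box D (K * L)) (om L (φ j)) (X j) (Yf σ)) ∂Q L) atTop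
      (𝓝 (if i = j then ∫ p in Slb D, ec (φ i) (φ j) p else 0)) := by
  obtain ⟨n₀, hn₀⟩ := setup hG μ D
  obtain ⟨k, hk⟩ : ∃ k : ℕ, k = 68 * (D + 1) := ⟨_, rfl⟩
  obtain ⟨k₀, hk₀⟩ := hASY k
  refine ⟨n₀ + k₀, fun X hX hort φ hφ K hK b hb Q hQ i j => ?_⟩
  have hb1 : ∀ᶠ L : ℕ in atTop, (L : ℝ) ^ n₀ ≤ b L := by
    filter_upwards [hb, eventually_ge_atTop 1] with L h1 h2
    exact (pow_le_pow_right₀ (by exact_mod_cast h2) (by omega)).trans h1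
  have hb2 : ∀ᶠ L : ℕ in atTop, (L : ℝ) ^ k₀ ≤ b L := by
    filter_upwards [hb, eventually_ge_atTop 1] with L h1 h2
    exact (pow_le_pow_right₀ (by exact_mod_cast h2) (by omega)).trans h1
  have hset := hn₀ b hb1 Q hQ
  choose γ hγ using fun j => exists_grp (hX j)
  have hnX : ∀ j, ‖X j‖ ≤ 1 := fun j => norm_ortho (by rw [hort, if_pos rfl])
  choose B hB0 hB using fun j => test_bound (hφ j)
  obtain ⟨C, hC⟩ : ∃ C : ℝ, C = 1 + D + N + (2 * (K : ℝ) + 1) ^ D + ∑ j, B j := ⟨_, rfl⟩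
  have hD0 : (0 : ℝ) ≤ D := Nat.cast_nonneg _
  have hN0 : (0 : ℝ) ≤ N := Nat.cast_nonneg _
  have hK0 : (0 : ℝ) ≤ (2 * (K : ℝ) + 1) ^ D := by positivity
  have hBs : 0 ≤ ∑ j, B j := Finset.sum_nonneg fun j _ => hB0 j
  have hBC : ∀ j, B j ≤ C := fun j => by
    have := Finset.single_le_sum (f := B) (fun j _ => hB0 j) (Finset.mem_univ j)
    rw [hC]; linarith
  -- the error
  obtain ⟨a1, -⟩ := hk₀ (20 * 100 ^ 9 * C ^ 68 * 3) b hb2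
  obtain ⟨-, a2⟩ := hk₀ (20 * 100 ^ 9 * C ^ 68 * 4) b hb2
  have hsum := a1.add a2
  rw [add_zero] at hsum
  -- the leading term
  have r1 := hEN (φ j) (φ i) (hφ j) (hφ i) K fun L hL x hx => ⟨hK j L hL x hx, hK i L hL x hx⟩
  have hmain := r1.const_mul (ip (X j) (X i))
  have hlim : ip (X j) (X i) * (∫ p in Slb D, ((∑ l, pd (φ j) (ez D) l p *
      pd (φ i) (ez D) l p) + ∑ l, ∑ m, if l < m then
      (pd (φ j) (eh l) m p - pd (φ j) (eh m) l p) *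
        (pd (φ i) (eh l) m p - pd (φ i) (eh m) l p) else 0)) =
      if i = j then ∫ p in Slb D, ec (φ i) (φ j) p else 0 := by
    rw [hort]
    by_cases hij : i = j
    · subst hij
      rw [if_pos rfl, if_pos rfl, one_mul]
      rfl
    · rw [if_neg hij, if_neg (fun h => hij h.symm), zero_mul]
  rw [hlim] at hmain
  refine tendsto_of_tendsto_of_dist hmain ?_
  refine squeeze_zero' (Eventually.of_forall fun L => dist_nonneg) ?_ hsum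
  filter_upwards [hset] with L hL
  obtain ⟨hL1, hbL, hsh, htail⟩ := hL
  have hL1' : (1 : ℝ) ≤ L := by exact_mod_cast hL1
  obtain ⟨s, hs⟩ : ∃ s : ℝ, s = C * (L : ℝ) ^ (D + 1) := ⟨_, rfl⟩
  obtain ⟨s1, s2, s3, s4, s5, s6⟩ := s_ok (N := N) (K := K) (by rw [hC]; linarith)
    (by rw [hC]; linarith) (by rw [hC]; linarith) (by rw [hC]; linarith) hL1 hs
  obtain ⟨M, hM⟩ : ∃ M : ℝ, M = b L ^ (-1 / 2 + 1 / 100 : ℝ) / 2 := ⟨_, rfl⟩
  rw [← hM] at htail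
  obtain ⟨hM0, hMp⟩ := pow_le' hbL hM
  obtain ⟨p0, hp0⟩ : ∃ p0 : ℝ, p0 = Real.exp (-(b L ^ (1 / 200 : ℝ))) := ⟨_, rfl⟩
  rw [← hp0] at htail
  have hp00 : 0 ≤ p0 := by rw [hp0]; exact (Real.exp_pos _).le
  have hb0 : 0 ≤ b L := by linarith
  have P : ∀ j, Par (box D (K * L)) (om L (φ j)) (X j) (γ j) s := fun j =>
    ⟨hγ j, hnX j, fun x hx => om_out (hK j L hL1) hx, s6 (φ j) (B j) (hB j) (hBC j)⟩
  have h3 := second hDH hSD hOBS hEXP hBND hsh s1 s2 s3 s4 s5 hb0 hM0 hp00 htail hPERT2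
    (P i) (P j)
  obtain ⟨I, hI⟩ : ∃ I : ℝ, I = ∫ σ, BL (box D (K * L)) (om L (φ i)) (X i) (Yf σ) *
    BL (box D (K * L)) (om L (φ j)) (X j) (Yf σ) ∂Q L := ⟨_, rfl⟩
  have eI : ∫ σ, (Real.sqrt (b L) * BL (box D (K * L)) (om L (φ i)) (X i) (Yf σ)) *
      (Real.sqrt (b L) * BL (box D (K * L)) (om L (φ j)) (X j) (Yf σ)) ∂Q L = b L * I := by
    rw [hI, ← integral_const_mul]
    refine integral_congr_ae (Eventually.of_forall fun σ => ?_)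
    simp only
    have := Real.mul_self_sqrt hb0
    calc _ = (Real.sqrt (b L) * Real.sqrt (b L)) *
          (BL (box D (K * L)) (om L (φ i)) (X i) (Yf σ) *
          BL (box D (K * L)) (om L (φ j)) (X j) (Yf σ)) := by ring
      _ = _ := by rw [this]
  rw [← hI] at h3
  rw [eI, dist_comm, Real.dist_eq]
  have e3 : ip (X j) (X i) * (((L : ℝ) ^ D)⁻¹ * L * ∑ x ∈ Ns (box D (K * L)),
      bx (rs L (φ j) : SF D L) (rs L (φ i)) x) =
      ip (X j) (X i) * ∑ x ∈ Ns (box D (K * L)), bx (om L (φ j) : SF D L) (om L (φ i)) x := by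
    rw [← lam2 hL1, Finset.mul_sum]
    congr 1
    refine Finset.sum_congr rfl fun x _ => ?_
    unfold om
    rw [bx_smul_left, bx_smul_right, smul_eq_mul, smul_eq_mul]
    ring
  rw [e3]
  refine h3.trans ?_
  have hcard := cl_card (V := box D (K * L)) s1 s2 s3 s5
  have hs0 : 0 ≤ s := by linarith
  have hMp' : M + b L * M ^ 3 ≤ 3 * b L ^ (-(9 / 20) : ℝ) := by
    have : 0 ≤ b L ^ 2 * M ^ 5 := by positivity
    linarith
  calc 20 * (100 * s ^ 7) ^ 9 * (M + b L * M ^ 3 +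
        (1 + b L) * (((clA (box D (K * L))).card : ℝ) * (D * L) * p0)) ≤
      20 * (100 * s ^ 7) ^ 9 * (3 * b L ^ (-(9 / 20) : ℝ) +
        (1 + b L + b L ^ 2) * (4 * s ^ 5 * p0)) := by
        have h9 : 1 + b L ≤ 1 + b L + b L ^ 2 := le_add_of_nonneg_right (by positivity)
        gcongr
    _ ≤ 20 * (100 * s ^ 7) ^ 9 * (3 * b L ^ (-(9 / 20) : ℝ) * s ^ 5 +
        (1 + b L + b L ^ 2) * (4 * s ^ 5 * p0)) := by
        have h5 : 1 ≤ s ^ 5 := one_le_pow₀ s1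
        have h6 : 0 ≤ 3 * b L ^ (-(9 / 20) : ℝ) := by positivity
        have h7 : 3 * b L ^ (-(9 / 20) : ℝ) ≤ 3 * b L ^ (-(9 / 20) : ℝ) * s ^ 5 :=
          le_mul_of_one_le_right h6 h5
        gcongr
    _ = _ := by
        rw [hs, hk, hp0]
        ring

end

end Pool.Agent.H586.GLU
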