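import Pool.Graph.R_pool_sql_team_seeded_63374d34.N990.C.Def

/-!
# Task GLU-NZ (helper586): the three-gluon vertex is not identically zero
-/

set_option autoImplicit false

open MeasureTheory Finset Filter Topology

namespace Pool.Agent.H586.GLU

open Pool.Agent.N990 Pool.Agent.N990.C

noncomputable section

variable {D : ℕ}

/-- the density of the vertex, all three terms -/
def vd3 (a b c : Pt D → Fin D → ℝ) (p : Pt D) : ℝ := ∑ i, ∑ j, if i < j then
  (pd a (eh i) j p - pd a (eh j) i p) * (b p i * c p j - b p j * c p i) +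
  (pd b (eh i) j p - pd b (eh j) i p) * (c p i * a p j - c p j * a p i) +
  (pd c (eh i) j p - pd c (eh j) i p) * (a p i * b p j - a p j * b p i) else 0

/-- **Task GLU-NZ** (80-140 lines). The three-gluon vertex is not identically zero.

Proof. Let `i0 = 0`, `i1 = 1` in `Fin D` (`2 ≤ D`) and let `g : Pt D → ℝ` be a smooth bump function with centre
`(0, 1 / 2)` and radii `1 / 8`, `1 / 4` (`ContDiffBump`; `Pt D = (Fin D → ℝ) × ℝ` is a finite dimensional normed
space with the sup norm), so `g = 0` unless `1 / 4 ≤ p.2 ≤ 3 / 4`. Put `φ0 = (x_{i0} g) e_{i1}`,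
`φ1 = g² e_{i0}`, `φ2 = g e_{i1}` (all other components are `0`); they are smooth with compact support and vanish
for `p.2 = 0`. The only pair `i < j` with a nonzero contribution is `(i0, i1)` (for the other pairs every wedge
product vanishes, because the fields have only the components `i0` and `i1`). For `(i0, i1)`:
`φ1 ∧ φ2 = g² * g`, `φ2 ∧ φ0 = 0`, `φ0 ∧ φ1 = - x g * g²`, `curl φ0 = ∂_{i0} (x g) = g + x ∂g`,
`curl φ2 = ∂_{i0} g =: ∂g`. So the density is `(g + x ∂g) g³ - ∂g x g³ = g⁴`. Its integral over the slab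
`0 ≤ p.2 ≤ 1` is positive: the function is continuous, nonnegative, has compact support and is `1` on the
ball of radius `1 / 8` around `(0, 1 / 2)`, which lies in the slab and has positive volume. -/
def S_NZ : Prop := ∀ {D : ℕ}, 2 ≤ D → ∃ φ0 φ1 φ2 : Pt D → Fin D → ℝ, IsTest φ0 ∧ IsTest φ1 ∧
  IsTest φ2 ∧ 0 < ∫ p in Slb D, vd3 φ0 φ1 φ2 p

end

end Pool.Agent.H586.GLU
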