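import Pool.Graph.R_pool_sql_team_seeded_63374d34.N109.CL.Asm

/-!
# Project GLU (helper586): the three-gluon vertex of lattice Yang-Mills theory in the slab

Goal (MP_7f377f_mp, millennium page): the first interacting correction to the continuum limit. All
definitions are those of the library modules `N990/Slab/Defs.lean` (`Site`, `Lab`, `Mt`, `UU`, `mt`, `low`,
`dv`, `dp`, `plabs`, `Yf`, `Pq`, `hx`, `bx`), `N990/Slab/Mat.lean` (`ip` and its lemmas), `N990/Slab/En.lean`,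
`N990/Slab/Ker.lean` (`Ns`), `N109/Slab/HK.lean` (`SF`, `bx_le`), `N109/Slab/SD.lean` (`Cf`, `sc`, `Shf`,
measurability lemmas), `N109/Slab/SD2.lean` (`clA`, `Gds`, `bad_le`), `N990/C/Def.lean`, `N839/C/Restr.lean`
of the run `R_pool_sql_team_seeded_63374d34` (`team-store fetch` them).
-/

set_option autoImplicit false
set_option linter.unusedSectionVars false
set_option linter.unusedVariables false

open MeasureTheory Matrix Finset Filter Topology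
open scoped Matrix.Norms.Frobenius

namespace Pool.Agent.H586.GLU

open Pool.Agent.N990 hiding CB CB_nonneg dd_le
open Pool.Agent.N109.Slab

noncomputable section

variable {N D L : ℕ} {G : Subgroup (UU N)}

/-- matrix fields -/
abbrev MF (N D L : ℕ) := Site D → Lab D L → Mt N

/-- `γ s = exp (s X)` -/
def Grp (X : Mt N) (γ : ℝ → G) : Prop := ∀ s, mt (γ s) = NormedSpace.exp (s • X)

/-- the shift -/
def vt (γ : ℝ → G) (ω : SF D L) (t : ℝ) : Cf G D L := fun x a => γ (t * ω x a)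

/-- the field `ω X` -/
def cf (ω : SF D L) (X : Mt N) : MF N D L := fun x a => ω x a • X

/-- `A ↦ ω X A` -/
def Tm (ω : SF D L) (X : Mt N) : MF N D L →ₗ[ℝ] MF N D L where
  toFun A := fun x a => ω x a • (X * A x a)
  map_add' A B := by
    funext x a
    simp only [Pi.add_apply, mul_add, smul_add]
  map_smul' c A := by
    funext x a
    simp only [Pi.smul_apply, Matrix.mul_smul, RingHom.id_apply, smul_comm c]

/-- the first variation of the energy based at `x` under the left shift by `exp (t ω X)` -/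
def dh (ω : SF D L) (X : Mt N) (σ : Cf G D L) (x : Site D) : ℝ :=
  ∑ a, ip (dv (Yf σ) x a) (dv (fun y b => ω y b • (X * mt (σ y b))) x a) +
  ∑ p ∈ plabs D L, ip (Pq σ x p) (
    ω x (p.1.1, p.2) • (X * mt (σ x (p.1.1, p.2)) * mt (σ (x + ev p.1.1) (p.1.2, p.2))) +
    ω (x + ev p.1.1) (p.1.2, p.2) •
      (mt (σ x (p.1.1, p.2)) * X * mt (σ (x + ev p.1.1) (p.1.2, p.2))) -
    ω x (p.1.2, p.2) • (X * mt (σ x (p.1.2, p.2)) * mt (σ (x + ev p.1.2) (p.1.1, p.2))) -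
    ω (x + ev p.1.2) (p.1.1, p.2) •
      (mt (σ x (p.1.2, p.2)) * X * mt (σ (x + ev p.1.2) (p.1.1, p.2))))

/-- the linear part of the variation of the energy -/
def BL (V : Finset (Site D)) (ω : SF D L) (X : Mt N) : MF N D L →ₗ[ℝ] ℝ where
  toFun A := ∑ x ∈ Ns V, bx ω (fun y b => ip X (A y b)) x
  map_add' A B := by
    rw [← Finset.sum_add_distrib]
    refine Finset.sum_congr rfl fun x _ => ?_
    rw [← bx_add_right]
    congr 1
    funext y b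
    simp only [Pi.add_apply, ip_add_right]
  map_smul' c A := by
    rw [RingHom.id_apply, smul_eq_mul, Finset.mul_sum]
    refine Finset.sum_congr rfl fun x _ => ?_
    rw [← smul_eq_mul, ← bx_smul_right]
    congr 1
    funext y b
    simp only [Pi.smul_apply, ip_smul_right, smul_eq_mul]

/-- the quadratic part of the variation of the energy based at `x`, as a bilinear form -/
def qx (ω : SF D L) (X : Mt N) (A B : MF N D L) (x : Site D) : ℝ :=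
  ∑ a, ip (dv A x a) (dv (fun y b => ω y b • (X * B y b)) x a) +
  ∑ p ∈ plabs D L,
    (dp ω x p * ip (A x (p.1.1, p.2) * B (x + ev p.1.1) (p.1.2, p.2) -
        A x (p.1.2, p.2) * B (x + ev p.1.2) (p.1.1, p.2)) X +
    ip (dp A x p) (
      ω x (p.1.1, p.2) • (X * (B x (p.1.1, p.2) + B (x + ev p.1.1) (p.1.2, p.2))) +
      ω (x + ev p.1.1) (p.1.2, p.2) •
        (B x (p.1.1, p.2) * X + X * B (x + ev p.1.1) (p.1.2, p.2)) -
      ω x (p.1.2, p.2) • (X * (B x (p.1.2, p.2) + B (x + ev p.1.2) (p.1.1, p.2))) -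
      ω (x + ev p.1.2) (p.1.1, p.2) •
        (B x (p.1.2, p.2) * X + X * B (x + ev p.1.2) (p.1.1, p.2))))

lemma dv_add' (A B : MF N D L) (x : Site D) (a : Lab D L) :
    dv (A + B) x a = dv A x a + dv B x a := by
  unfold dv low
  split_ifs
  · simp
  · simp only [Pi.add_apply]; abel

lemma dp_add' (A B : MF N D L) (x : Site D) (p : (Fin D × Fin D) × Fin L) :
    dp (A + B) x p = dp A x p + dp B x p := by
  unfold dp
  simp only [Pi.add_apply]; abel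

lemma dv_smul' (c : ℝ) (A : MF N D L) (x : Site D) (a : Lab D L) :
    dv (c • A) x a = c • dv A x a := by
  unfold dv low
  split_ifs
  · simp
  · simp only [Pi.smul_apply, smul_sub]

lemma dp_smul' (c : ℝ) (A : MF N D L) (x : Site D) (p : (Fin D × Fin D) × Fin L) :
    dp (c • A) x p = c • dp A x p := by
  unfold dp
  simp only [Pi.smul_apply, smul_sub, smul_add]

/-- the quadratic part of the variation of the energy, as a bilinear form -/
def QL (V : Finset (Site D)) (ω : SF D L) (X : Mt N) : MF N D L →ₗ[ℝ] MF N D L →ₗ[ℝ] ℝ :=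
  LinearMap.mk₂ ℝ (fun A B => ∑ x ∈ Ns V, qx ω X A B x)
    (fun A A' B => by
      rw [← Finset.sum_add_distrib]
      refine Finset.sum_congr rfl fun x _ => ?_
      unfold qx
      simp only [dv_add', dp_add', Pi.add_apply, ip_add_left, add_mul, ip_sub_left,
        Finset.sum_add_distrib, mul_add, mul_sub]
      rw [← sub_eq_zero]
      simp only [Finset.sum_add_distrib, Finset.sum_sub_distrib]
      ring)
    (fun c A B => by
      rw [smul_eq_mul, Finset.mul_sum]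
      refine Finset.sum_congr rfl fun x _ => ?_
      unfold qx
      rw [mul_add, Finset.mul_sum, Finset.mul_sum]
      congr 1
      · refine Finset.sum_congr rfl fun a _ => ?_
        rw [dv_smul', ip_smul_left]
      · refine Finset.sum_congr rfl fun p _ => ?_
        rw [dp_smul', ip_smul_left]
        simp only [Pi.smul_apply, Matrix.smul_mul, ← smul_sub, ip_smul_left]
        ring)
    (fun A B B' => by
      rw [← Finset.sum_add_distrib]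
      refine Finset.sum_congr rfl fun x _ => ?_
      have e1 : ∀ a, dv (fun y b => ω y b • (X * (B + B') y b)) x a =
          dv (fun y b => ω y b • (X * B y b)) x a + dv (fun y b => ω y b • (X * B' y b)) x a := by
        intro a
        rw [← dv_add']
        congr 1
        funext y b
        simp only [Pi.add_apply, mul_add, smul_add]
      unfold qx
      simp only [e1]
      simp only [Pi.add_apply, ip_add_right, ip_add_left, add_mul, ip_sub_left, ip_sub_right,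
        mul_add, mul_sub, smul_add, Finset.sum_add_distrib, Finset.sum_sub_distrib]
      ring)
    (fun c A B => by
      rw [smul_eq_mul, Finset.mul_sum]
      refine Finset.sum_congr rfl fun x _ => ?_
      have e1 : ∀ a, dv (fun y b => ω y b • (X * (c • B) y b)) x a =
          c • dv (fun y b => ω y b • (X * B y b)) x a := by
        intro a
        rw [← dv_smul']
        congr 1
        funext y b
        simp only [Pi.smul_apply, Matrix.mul_smul, smul_comm c]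
      unfold qx
      simp only [e1]
      rw [mul_add, Finset.mul_sum, Finset.mul_sum]
      congr 1
      · refine Finset.sum_congr rfl fun a _ => ?_
        rw [ip_smul_right]
      · refine Finset.sum_congr rfl fun p _ => ?_
        simp only [Pi.smul_apply, Matrix.mul_smul, Matrix.smul_mul, ← smul_add, ← smul_sub,
          smul_comm _ c, ip_smul_left, ip_smul_right]
        ring)

lemma QL_apply (V : Finset (Site D)) (ω : SF D L) (X : Mt N) (A B : MF N D L) :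
    QL V ω X A B = ∑ x ∈ Ns V, qx ω X A B x := rfl

/-- the supremum of the norms over the columns of `W` -/
def nu (W : Finset (Site D)) (A : MF N D L) : ℝ :=
  (((W ×ˢ (Finset.univ : Finset (Lab D L))).sup fun q => ‖A q.1 q.2‖₊ : NNReal) : ℝ)

lemma nu_nonneg (W : Finset (Site D)) (A : MF N D L) : 0 ≤ nu W A := NNReal.coe_nonneg _

lemma le_nu {W : Finset (Site D)} (A : MF N D L) {x : Site D} (hx : x ∈ W) (a : Lab D L) :
    ‖A x a‖ ≤ nu W A := by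
  have h := Finset.le_sup (f := fun q : Site D × Lab D L => ‖A q.1 q.2‖₊)
    (Finset.mem_product.2 ⟨hx, Finset.mem_univ a⟩ : (x, a) ∈ W ×ˢ (Finset.univ : Finset (Lab D L)))
  exact_mod_cast h

lemma nu_le {W : Finset (Site D)} {A : MF N D L} {m : ℝ} (hm : 0 ≤ m)
    (h : ∀ x ∈ W, ∀ a, ‖A x a‖ ≤ m) : nu W A ≤ m := by
  lift m to NNReal using hm
  unfold nu
  rw [NNReal.coe_le_coe]
  refine Finset.sup_le fun q hq => ?_
  exact_mod_cast h q.1 (Finset.mem_product.1 hq).1 q.2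

/-- the antisymmetric product at a horizontal plaquette -/
def wd (u v : SF D L) (x : Site D) (p : (Fin D × Fin D) × Fin L) : ℝ :=
  u x (p.1.1, p.2) * v (x + ev p.1.1) (p.1.2, p.2) -
    u (x + ev p.1.1) (p.1.2, p.2) * v x (p.1.1, p.2) +
    u (x + ev p.1.2) (p.1.1, p.2) * v x (p.1.2, p.2) -
    u x (p.1.2, p.2) * v (x + ev p.1.2) (p.1.1, p.2)

/-! ### The tasks -/

/-- **Task GLU-DH** (derivative of the energy along the one-parameter group; 100-150 lines).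

Proof. With `f t y b = mt (vt γ ω t y b * σ y b) = exp ((t * ω y b) • X) * mt (σ y b)` one has
`HasDerivAt (fun t => f t y b) (ω y b • (X * mt (σ y b))) 0`: use `hasDerivAt_exp_smul_const` (Mathlib; the
topology of `Matrix` with the Frobenius norm makes it a Banach algebra: `NormedRing`, `NormedAlgebra ℝ` from
`open scoped Matrix.Norms.Frobenius`) or directly the estimate `exp_second` of `N990` (used in
`H586/SLB/Fin.lean`: `‖mt g - 1 - w‖ ≤ ‖w‖ ^ 2` for `mt g = exp w`). Then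
`dv (Yf (vt γ ω t * σ)) x a` has the derivative `dv (fun y b => ω y b • (X * mt (σ y b))) x a` (in the lowest
layer `low` is `0` on both sides), and `Pq (vt γ ω t * σ) x p` has by the product rule the derivative in
the second slot of `ip` in `dh` (the values at `t = 0` are `mt (σ y b)` since `γ 0 = 1`:
`mt (γ 0) = exp 0 = 1` and `mt` is injective, `N109.Slab.mt_inj`). Finally the derivative of
`(1 / 2) * ‖g t‖ ^ 2` is `ip (g 0) g'`: `‖A‖ ^ 2 = ip A A` (`ip_self`) and `ip` is a bounded bilinear form over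
`ℝ` (`ip_add_left`, ..., `ip_le`: `|ip A B| ≤ ‖A‖ ‖B‖`; one can also expand
`‖g t‖^2 = ‖g 0‖^2 + 2 ip (g 0) (g t - g 0) + ‖g t - g 0‖ ^ 2` with `norm_sq_add`; `A ↦ ip X A` is continuous
linear). Measurability: as for `hx_meas` in `N109/Slab/SD.lean` (`cont_mt`, `sctG`, continuity of the
function `σ ↦ dh ω X σ x`, where `ip` is continuous in both variables: unfold `ip`, `fun_prop`). -/
def S_DH : Prop := ∀ {N D L : ℕ} {G : Subgroup (UU N)} (X : Mt N) (ω : SF D L) (x : Site D),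
  (∀ γ : ℝ → G, Grp X γ → ∀ σ : Cf G D L,
    HasDerivAt (fun t => hx (vt γ ω t * σ) x) (dh ω X σ x) 0) ∧
  ∀ [MeasurableSpace G] [BorelSpace G], Measurable fun σ : Cf G D L => dh ω X σ x

/-- **Task GLU-SD** (the Schwinger-Dyson identity; 120-200 lines).

Proof. Let `H σ = ∑ x ∈ Ns V, hx σ x` and `v t = vt γ ω t`. By `Shf.shift` (for `V`, `v t`; it has the value `1`
outside `V` because `γ (t * 0) = γ 0 = 1`), in the form for bounded real functions (take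
`Gd = Set.univ` in `Shf.set` of `N109/Slab/SD.lean`),
`∫ F = ∫ F (v t * σ) * exp (-(β * (H (v t * σ) - H σ))) ∂μ` for every `t`. Since
`v (t + s) = v s * v t` (`γ (a + b) = γ a * γ b`, from `NormedSpace.exp_add_of_commute` / `exp_add_smul` and the
injectivity of `mt`, `N109.Slab.mt_inj`), the function `u ↦ F (v u * σ)` has the derivative `F' (v u * σ)` at
every `u` (apply the hypothesis to the configuration `v u * σ`), and `u ↦ H (v u * σ)` has the derivative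
`H' (v u * σ)` at every `u`. So the integrand has at every `u` the derivative
`(F' (v u * σ) - β F (v u * σ) H' (v u * σ)) * exp (-(β * (H (v u * σ) - H σ)))`, which is bounded
uniformly in `u` and `σ` (`0 ≤ hx σ x ≤` constant: `hx_nonneg`, `hx_le`, `es_le` of `N990/Slab/En.lean`, so
that `H` is bounded on all configurations). By
`hasDerivAt_integral_of_dominated_loc_of_deriv_le` the derivative at `0` of the constant function is
`∫ (F' σ - β F σ H' σ) ∂μ = 0`. Measurability of the integrand: `mulv_meas`, `hx_meas`. -/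
def S_SD : Prop := ∀ {N D L : ℕ} {G : Subgroup (UU N)} [MeasurableSpace G] [BorelSpace G] {β : ℝ}
  {μ : Measure (Cf G D L)}, Shf G D L β μ → ∀ {X : Mt N} {γ : ℝ → G}, Grp X γ →
  ∀ {V : Finset (Site D)} {ω : SF D L}, (∀ x, x ∉ V → ω x = 0) →
  ∀ {F F' H' : Cf G D L → ℝ} {C : ℝ}, Measurable F → Measurable F' → Measurable H' →
  (∀ σ, |F σ| ≤ C) → (∀ σ, |F' σ| ≤ C) → (∀ σ, |H' σ| ≤ C) →
  (∀ σ, HasDerivAt (fun t => F (vt γ ω t * σ)) (F' σ) 0) →
  (∀ σ, HasDerivAt (fun t => ∑ x ∈ Ns V, hx (vt γ ω t * σ) x) (H' σ) 0) →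
  ∫ σ, F' σ ∂μ = β * ∫ σ, F σ * H' σ ∂μ

/-- **Task GLU-OBS** (linear and bilinear local observables; 100-180 lines).

Proof. A linear functional `ℓ` with `|ℓ A| ≤ K * nu W A` depends only on the restriction of `A` to `W`: let
`R : (W → Lab D L → Mt N) →ₗ[ℝ] MF N D L` be the extension by zero and `S` the restriction; then
`nu W (A - R (S A)) = 0` (`nu_le`), so `ℓ A = (ℓ ∘ R) (S A)`. The domain of `R` is finite dimensional, so
`ℓ ∘ R` is continuous (`LinearMap.continuous_of_finiteDimensional`, `LinearMap.toContinuousLinearMap`).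
Measurability: `σ ↦ S (Yf σ)` is continuous (`cont_mt` of `N109/Slab/SD.lean`; `sctG` for the Borel structure of
the product). Derivative: `t ↦ Yf (vt γ ω t * σ) x a = exp ((t * ω x a) • X) * mt (σ x a) - 1` has the
derivative `ω x a • (X * mt (σ x a)) = cf ω X x a + Tm ω X (Yf σ) x a` at `0` (`hasDerivAt_exp_smul_const`; or
the estimate `exp_second` of `N990`); `hasDerivAt_pi`, then compose with the continuous linear map. At
`t = 0` the configuration is `σ` (`γ 0 = 1` as `mt (γ 0) = exp 0 = 1`, `N109.Slab.mt_inj`). The bilinear form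
is treated in the same way: `q A B = q (R (S A)) (R (S B))`, on the finite dimensional space it is a
continuous bilinear map (`LinearMap.mkContinuous₂` with the bound
`|q (R a) (R b)| ≤ K ‖a‖ ‖b‖`, or `LinearMap.toContinuousLinearMap` twice), then the product rule. (A bound with
`K < 0` also holds with `K = 0`, so one may assume `0 ≤ K` by replacing `K` by `|K|`.) -/
def S_OBS : Prop := ∀ {N D L : ℕ} {G : Subgroup (UU N)} {W : Finset (Site D)} {K : ℝ},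
  (∀ l : MF N D L →ₗ[ℝ] ℝ, (∀ A, |l A| ≤ K * nu W A) →
    (∀ [MeasurableSpace G] [BorelSpace G], Measurable fun σ : Cf G D L => l (Yf σ)) ∧
    ∀ (X : Mt N) (γ : ℝ → G), Grp X γ → ∀ (ω : SF D L) (σ : Cf G D L),
      HasDerivAt (fun t => l (Yf (vt γ ω t * σ))) (l (cf ω X + Tm ω X (Yf σ))) 0) ∧
  ∀ q : MF N D L →ₗ[ℝ] MF N D L →ₗ[ℝ] ℝ, (∀ A B, |q A B| ≤ K * nu W A * nu W B) →
    (∀ [MeasurableSpace G] [BorelSpace G], Measurable fun σ : Cf G D L => q (Yf σ) (Yf σ)) ∧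
    ∀ (X : Mt N) (γ : ℝ → G), Grp X γ → ∀ (ω : SF D L) (σ : Cf G D L),
      HasDerivAt (fun t => q (Yf (vt γ ω t * σ)) (Yf (vt γ ω t * σ)))
        (q (cf ω X + Tm ω X (Yf σ)) (Yf σ) + q (Yf σ) (cf ω X + Tm ω X (Yf σ))) 0

/-- **Task GLU-EXP** (expansion of the variation of the energy; 100-150 lines).

Proof. Write `U = mt (σ y b) = 1 + Y`, `Y = Yf σ y b`. Vertical terms: `X * U = X + X * Y`, so
`ip (dv Y) (dv (ω X U)) = dv ω x a * ip (dv Y x a) X + ip (dv Y x a) (dv (ω X Y))` exactly (`dv_smulX` of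
`N109/Slab/SD.lean`): the first term is the term of `BL` (`bx`, `dv_sc`, `ip_comm`; `Yf σ` composed with
`ip X` is `sc X σ`), the second one is the term of `qx`. Plaquettes: `Pq σ x p = d + k` with `d = dp (Yf σ) x p`,
`k = Y1 * Y2 - Y4 * Y3` (`Pq_eq` of `N990/Slab/En.lean`; `Y1 = Yf σ x (p.1.1, p.2)`,
`Y2 = Yf σ (x + ev p.1.1) (p.1.2, p.2)`, `Y3 = Yf σ (x + ev p.1.2) (p.1.1, p.2)`, `Y4 = Yf σ x (p.1.2, p.2)`), and
the second slot of `ip` is `dp ω x p • X + l + c` with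
`l = ω1 X (Y1 + Y2) + ω2 (Y1 X + X Y2) - ω4 X (Y4 + Y3) - ω3 (Y4 X + X Y3)` and
`c = ω1 X Y1 Y2 + ω2 Y1 X Y2 - ω4 X Y4 Y3 - ω3 Y4 X Y3` (expand `U = 1 + Y`; `noncomm_ring` / `abel`). Hence
`ip (Pq) (..) = dp ω * ip d X + (dp ω * ip k X + ip d l) + (ip k l + ip d c + ip k c)`: the first term is
that of `BL`, the second that of `qx σ σ`, and the remainder is bounded with `m = nu (clA V) (Yf σ)` (all
sites `x`, `x + ev i`, `x ∈ Ns V`, are in `clA V`: `Ns_clA`, `mem_clA`, `le_nu`) by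
the following: `‖k‖ ≤ 2 m²`, `‖l‖ ≤ 8 s m`, `‖d‖ ≤ 4 m`, `‖c‖ ≤ 4 s m²`
(`norm_mul_le`, `‖X‖ ≤ 1`), so by `ip_le` it is at most `16 s m³ + 16 s m³ + 8 s m⁴`, and `m ≤ 2 N ≤ 2 s`
(`Yf_le`, `nu_le`), in total `≤ 48 s² m³`. There are at most `D * D * L ≤ s³` plaquette labels and
`(Ns V).card ≤ (D + 1) V.card ≤ 2 s²` sites (`Ns_card`): `≤ 96 s⁷ m³`. -/
def S_EXP : Prop := ∀ {N D L : ℕ} {G : Subgroup (UU N)} (V : Finset (Site D)) (ω : SF D L) (X : Mt N)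
  (σ : Cf G D L) {s : ℝ}, 1 ≤ s → (D : ℝ) ≤ s → (L : ℝ) ≤ s → (N : ℝ) ≤ s → (V.card : ℝ) ≤ s →
  (∀ x a, |ω x a| ≤ s) → ‖X‖ ≤ 1 →
  |∑ x ∈ Ns V, dh ω X σ x - BL V ω X (Yf σ) - QL V ω X (Yf σ) (Yf σ)| ≤
    100 * s ^ 7 * nu (clA V) (Yf σ) ^ 3

/-- **Task GLU-BND** (bounds of the linear and bilinear forms; 80-140 lines).

Proof. Everything is a sum of at most `(Ns V).card ≤ (D + 1) V.card ≤ 2 s²` terms (`Ns_card`), the sites `x`
and `x + ev i` with `x ∈ Ns V` are in `clA V` (`Ns_clA`, `mem_clA`), `‖A y b‖ ≤ nu (clA V) A` there (`le_nu`).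
(1) `bx_le` of `N109/Slab/HK.lean` (`|ip X (A y b)| ≤ ‖A y b‖` by `ip_le`): `|bx ..| ≤ (4 D L + 16 D² L) s nu`.
(2) vertical: `‖dv A‖ ≤ 2 nu A`, `‖dv (ω X B)‖ ≤ 2 s nu B`; `D L` labels. Plaquettes:
`|dp ω| ≤ 4 s`, `‖A B - A B‖ ≤ 2 nu nu`, `‖dp A‖ ≤ 4 nu`, the last slot has norm at most `8 s nu B`; at most
`D² L` labels; in total at most `4 s³ nu nu + 40 s⁴ nu nu` per site. (3) `norm_smul`, `norm_mul_le`. -/
def S_BND : Prop := ∀ {N D L : ℕ} (V : Finset (Site D)) (ω : SF D L) (X : Mt N) {s : ℝ},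
  1 ≤ s → (D : ℝ) ≤ s → (L : ℝ) ≤ s → (V.card : ℝ) ≤ s → (∀ x a, |ω x a| ≤ s) → ‖X‖ ≤ 1 →
  (∀ A : MF N D L, |BL V ω X A| ≤ 100 * s ^ 7 * nu (clA V) A) ∧
  (∀ A B : MF N D L, |QL V ω X A B| ≤ 100 * s ^ 7 * nu (clA V) A * nu (clA V) B) ∧
  (∀ A : MF N D L, nu (clA V) (Tm ω X A) ≤ s * nu (clA V) A) ∧ nu (clA V) (cf ω X) ≤ s

/-- the data of one direction in the abstract perturbation lemma -/
structure Dir {Ω E : Type} [MeasurableSpace Ω] [AddCommGroup E] [Module ℝ E] (μ : Measure Ω)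
    (Y : Ω → E) (ν : E → ℝ) (β K : ℝ) (c : E) (T : E →ₗ[ℝ] E) (B : E →ₗ[ℝ] ℝ)
    (q : E →ₗ[ℝ] E →ₗ[ℝ] ℝ) (h : Ω → ℝ) : Prop where
  c_le : ν c ≤ K
  T_le : ∀ A, ν (T A) ≤ K * ν A
  B_le : ∀ A, |B A| ≤ K * ν A
  q_le : ∀ A A', |q A A'| ≤ K * ν A * ν A'
  h_meas : Measurable h
  h_le : ∀ ω, |h ω - B (Y ω) - q (Y ω) (Y ω)| ≤ K * ν (Y ω) ^ 3
  sd1 : ∀ l : E →ₗ[ℝ] ℝ, (∃ C, ∀ A, |l A| ≤ C * ν A) →
    ∫ ω, l (c + T (Y ω)) ∂μ = β * ∫ ω, l (Y ω) * h ω ∂μ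
  sd2 : ∀ l l' : E →ₗ[ℝ] ℝ, (∃ C, ∀ A, |l A| ≤ C * ν A) → (∃ C, ∀ A, |l' A| ≤ C * ν A) →
    ∫ ω, (l (c + T (Y ω)) * l' (Y ω) + l (Y ω) * l' (c + T (Y ω))) ∂μ =
      β * ∫ ω, l (Y ω) * l' (Y ω) * h ω ∂μ
  sd3 : ∀ (l : E →ₗ[ℝ] ℝ) (k : E →ₗ[ℝ] E →ₗ[ℝ] ℝ), (∃ C, ∀ A, |l A| ≤ C * ν A) →
    (∃ C, ∀ A A', |k A A'| ≤ C * ν A * ν A') →
    ∫ ω, (l (c + T (Y ω)) * k (Y ω) (Y ω) +
      l (Y ω) * (k (c + T (Y ω)) (Y ω) + k (Y ω) (c + T (Y ω)))) ∂μ =
      β * ∫ ω, l (Y ω) * k (Y ω) (Y ω) * h ω ∂μ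

/-- **Task GLU-PERT** (abstract perturbation lemma; only Mathlib; 150-250 lines).

Proof. Write `n ω = ν (Y ω)`, `n ≤ K`, `rk = hk - Bk (Y) - qk (Y, Y)`, `|rk| ≤ K n³`, `E = ∫ .. ∂μ`. All functions below
are measurable (by `ml`, `mq` and `h_meas`; compositions such as `B2 ∘ T1` are again linear functionals
bounded by `ν`) and bounded, hence integrable.
(a) `sd2` of direction 1 with `l = B2`, `l' = B3`; `B2 c1 = B3 c1 = 0`:
`β E[B2 B3 h1] = E[B2(T1 Y) B3(Y)] + E[B2(Y) B3(T1 Y)]`. As `h1 = B1 + q1 + r1`,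
`β² E[B1 B2 B3] = β E[B3 l2] + β E[B2 l3] - β² E[B2 B3 q1] - β² E[B2 B3 r1]`, `l2 = B2 ∘ T1`, `l3 = B3 ∘ T1`.
(b) `sd1` of direction 3 with `l2`: `l2(c3) + E[l2(T3 Y)] = β E[l2 (B3 + q3 + r3)]`; so
`β E[B3 l2] = B2(T1 c3) + E[l2(T3 Y)] - β E[l2 (q3 + r3)]`.
(c) `sd1` of direction 2 with `l3`: `β E[B2 l3] = B3(T1 c2) + E[l3(T2 Y)] - β E[l3 (q2 + r2)]`.
(d) `sd3` of direction 2 with `l = B3`, `k = q1`; `B3 c2 = 0`:
`β E[B3 q1 (B2 + q2 + r2)] = E[B3(T2 Y) q1(Y,Y)] + E[B3(Y) m(Y)] + E[B3(Y) (q1(T2 Y, Y) + q1(Y, T2 Y))]` with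
`m A = q1 c2 A + q1 A c2`.
(e) `sd1` of direction 3 with `m`: `β E[m (B3 + q3 + r3)] = m(c3) + E[m(T3 Y)]`.
Multiply (d) by `β` and insert (e) and everything in (a):
`β² E[B1 B2 B3] = B2(T1 c3) + B3(T1 c2) - m(c3) + error`. Bounds of the error terms, with `E n^j ≤ M^j + K^j p`
(split into `n ≤ M` and `n > M`; use `K ≥ 1`), `|r| ≤ K n³ ≤ K² n²`: terms with `n`:
`|l2(T3 Y)|, |l3(T2 Y)| ≤ K³ n`, `|m(T3 Y)| ≤ 2 K³ n`; terms with `β n³`:
`|l2 (q3 + r3)|, |l3 (q2 + r2)| ≤ 2 K⁴ n³`, `|B3(T2 Y) q1| ≤ K³ n³`, `|B3 (q1(T2 Y, Y) + q1(Y, T2 Y))| ≤ 2 K³ n³`,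
`|m (q3 + r3)| ≤ 4 K⁴ n³`; terms with `β² n⁵`: `|B3 q1 (q2 + r2)| ≤ 2 K⁴ n⁵`, `|B2 B3 r1| ≤ K³ n⁵`. So the
error is at most `4 K³ E n + 11 K⁴ β E n³ + 3 K⁴ β² E n⁵`. -/
def S_PERT : Prop := ∀ {Ω E : Type} [MeasurableSpace Ω] [AddCommGroup E] [Module ℝ E] (μ : Measure Ω)
  [IsProbabilityMeasure μ] (Y : Ω → E) (ν : E → ℝ) (β K M p : ℝ) (c1 c2 c3 : E)
  (T1 T2 T3 : E →ₗ[ℝ] E) (B1 B2 B3 : E →ₗ[ℝ] ℝ) (q1 q2 q3 : E →ₗ[ℝ] E →ₗ[ℝ] ℝ) (h1 h2 h3 : Ω → ℝ),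
  1 ≤ K → 0 ≤ β → 0 ≤ M → 0 ≤ p → (∀ A, 0 ≤ ν A) → (∀ ω, ν (Y ω) ≤ K) →
  Measurable (fun ω => ν (Y ω)) → μ.real {ω | M < ν (Y ω)} ≤ p →
  (∀ l : E →ₗ[ℝ] ℝ, (∃ C, ∀ A, |l A| ≤ C * ν A) → Measurable fun ω => l (Y ω)) →
  (∀ k : E →ₗ[ℝ] E →ₗ[ℝ] ℝ, (∃ C, ∀ A A', |k A A'| ≤ C * ν A * ν A') →
    Measurable fun ω => k (Y ω) (Y ω)) →
  Dir μ Y ν β K c1 T1 B1 q1 h1 → Dir μ Y ν β K c2 T2 B2 q2 h2 → Dir μ Y ν β K c3 T3 B3 q3 h3 →
  B2 c1 = 0 → B3 c1 = 0 → B3 c2 = 0 →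
  |β ^ 2 * ∫ ω, B1 (Y ω) * B2 (Y ω) * B3 (Y ω) ∂μ -
    (B2 (T1 c3) + B3 (T1 c2) - q1 c2 c3 - q1 c3 c2)| ≤
    20 * K ^ 9 * (M + β * M ^ 3 + β ^ 2 * M ^ 5 + (1 + β + β ^ 2) * p)

/-- **Task GLU-ALG** (the leading term is the discrete three-gluon vertex; 80-150 lines).

Proof. Let `w = ω1`, `a = ω2`, `b = ω3` and `c0 = Re tr (X1 X2 X3)`. For antihermitian matrices
`Re tr (X1 X2 X3) = Re tr (X2 X3 X1) = Re tr (X3 X1 X2) = c0` (cyclicity, `trace_mul_cycle`) and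
`Re tr (X3 X2 X1) = Re tr (X2 X1 X3) = Re tr (X1 X3 X2) = -c0` (conjugate transpose of the product,
`trace_conjTranspose`). So with `ip A B = Re tr (Aᴴ B)`: `ip X2 (X1 X3) = c0`, `ip X3 (X1 X2) = -c0`,
`ip (X2 X3) X1 = -c0`, `ip (X3 X2) X1 = c0`, `ip X2 (X3 X1) = -c0`, `ip X3 (X2 X1) = c0`. All the terms are scalar
multiples of these. Site by site, vertical terms: in `BL V a X2 (Tm w X1 (cf b X3))` it is
`dv a * dv (w b) * c0` (the matrix `X1 * (b • X3) = b • (X1 X3)`; the pointwise product `w b`), in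
`BL V b X3 (Tm w X1 (cf a X2))` it is `- dv b * dv (w a) * c0`, in `qx w X1 (cf a X2) (cf b X3)` it is
`dv a * dv (w b) * c0` and in `qx w X1 (cf b X3) (cf a X2)` it is `- dv b * dv (w a) * c0`: they cancel.
Plaquettes (indices `1 = (x, i)`, `2 = (x + e_i, j)`, `3 = (x + e_j, i)`, `4 = (x, j)`): the sum of the four
terms is `c0` times `dp a * (w1 b1 + w2 b2 - w4 b4 - w3 b3) - dp b * (w1 a1 + w2 a2 - w4 a4 - w3 a3)
- dp w * (-(a1 b2) + a4 b3 + b1 a2 - b4 a3) - dp a * (w1 (b1 + b2) + w2 (b2 - b1) - w4 (b4 + b3) - w3 (b3 - b4))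
+ dp b * (w1 (a1 + a2) + w2 (a2 - a1) - w4 (a4 + a3) - w3 (a3 - a4))`, and this is equal to
`dp w * wd a b + dp a * wd b w + dp b * wd w a` (`ring`). -/
def S_ALG : Prop := ∀ {N D L : ℕ} (V : Finset (Site D)) (ω1 ω2 ω3 : SF D L) (X1 X2 X3 : Mt N),
  X1ᴴ = -X1 → X2ᴴ = -X2 → X3ᴴ = -X3 →
  BL V ω2 X2 (Tm ω1 X1 (cf ω3 X3)) + BL V ω3 X3 (Tm ω1 X1 (cf ω2 X2)) -
    QL V ω1 X1 (cf ω2 X2) (cf ω3 X3) - QL V ω1 X1 (cf ω3 X3) (cf ω2 X2) =
  (trace (X1 * X2 * X3)).re * ∑ x ∈ Ns V, ∑ p ∈ plabs D L,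
    (dp ω1 x p * wd ω2 ω3 x p + dp ω2 x p * wd ω3 ω1 x p + dp ω3 x p * wd ω1 ω2 x p)

/-- **Task GLU-RS** (Riemann sum of the vertex; 120-200 lines).

Proof. Model: `EL_rs` and `JL_rs` in `N839/C/Restr.lean` (`tend_slab`, `slope_tendsto`, `vd_rs`, `hd_rs`,
`test_bd`, `ext_rs`) together with `EL_eq` / `JL_eq` of `N990/C/Def.lean` (which convert the sum over the lattice
times `(1 / L) ^ (D + 1)` into the integral of the step function). The summand is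
`G L z = ∑ i j, if i < j then (L * hd i j z) * wd ..` in the notation of these files (`hd v i j z` is `dp` at
the lattice point `z = (x, s + 1)`: `hd_site`), and `(L ^ D)⁻¹ ∑ dp * wd = (1 / L) ^ (D + 1) ∑ (L dp) * wd`.
`L * dp (rs L φ1)` converges to `∂_i φ1_j - ∂_j φ1_i` (`slope_tendsto` as in `EL_rs`) at the points
`emb L (flo L p) → p` and `wd (rs L φ2) (rs L φ3)` converges to
`2 (φ2_i φ3_j - φ2_j φ3_i)` by continuity (`emb_flo_tendsto`; the arguments are shifted by `1 / L` in the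
direction `eh i` or `eh j`); all is bounded and supported in a fixed ball (`test_bd`). -/
def S_RS : Prop := ∀ {D : ℕ} (φ1 φ2 φ3 : N990.C.Pt D → Fin D → ℝ), N990.C.IsTest φ1 →
  N990.C.IsTest φ2 → N990.C.IsTest φ3 → ∀ K : ℕ,
  (∀ L : ℕ, 1 ≤ L → ∀ x, x ∉ box D (K * L) → (N839.C.rs L φ1 : SF D L) x = 0 ∧
    (N839.C.rs L φ2 : SF D L) x = 0 ∧ (N839.C.rs L φ3 : SF D L) x = 0) →
  Tendsto (fun L : ℕ => ((L : ℝ) ^ D)⁻¹ * ∑ x ∈ Ns (box D (K * L)), ∑ p ∈ plabs D L,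
      dp (N839.C.rs L φ1 : SF D L) x p * wd (N839.C.rs L φ2 : SF D L) (N839.C.rs L φ3) x p) atTop
    (𝓝 (∫ p in N990.C.Slb D, ∑ i, ∑ j, if i < j then
      (N990.C.pd φ1 (N990.C.eh i) j p - N990.C.pd φ1 (N990.C.eh j) i p) *
        (2 * (φ2 p i * φ3 p j - φ2 p j * φ3 p i)) else 0))

/-- **Task GLU-SKEW** (only Mathlib; 20-40 lines). The Lie algebra of a group of unitary matrices is
antihermitian.

Proof. `exp (t X)` is unitary for all real `t`, so `exp (t Xᴴ) = (exp (t X))ᴴ = exp (t X)⁻¹ = exp (t (-X))`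
(`Matrix.exp_conjTranspose`, `Matrix.exp_neg`); the derivatives at `t = 0` are `Xᴴ` and `-X`
(`hasDerivAt_exp_smul_const`, uniqueness of the derivative). -/
def S_SKEW : Prop := ∀ {N : ℕ} {G : Subgroup (UU N)} (X : Mt N),
  (∀ t : ℝ, ∃ g : G, mt g = NormedSpace.exp (t • X)) → Xᴴ = -X

/-- **Task GLU-ASY** (real analysis, only Mathlib; 40-80 lines).

Proof. Let `K₀ = 4 * (k + 2)` say. Eventually `L ≥ C`, `L ^ K₀ ≤ b L`, so that `b L → ∞`, `L ≤ (b L) ^ (1 / K₀)`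
and `C * L ^ k ≤ L ^ (k + 1) ≤ (b L) ^ ((k + 1) / K₀) ≤ (b L) ^ (1 / 4)`. Then
`C L ^ k (b L) ^ (-9 / 20) ≤ (b L) ^ (-1 / 5) → 0` and
`C L ^ k (1 + b + b ^ 2) exp (-(b ^ (1 / 200))) ≤ 3 b ^ (9 / 4) exp (-(b ^ (1 / 200))) → 0`
(`b ≥ 1`; substitute `t = b ^ (1 / 200)`: `t ^ 450 * exp (-t) → 0`,
`Real.tendsto_pow_mul_exp_neg_atTop_nhds_zero`). -/
def S_ASY : Prop := ∀ k : ℕ, ∃ K₀ : ℕ, ∀ (C : ℝ) (b : ℕ → ℝ),
  (∀ᶠ L : ℕ in atTop, (L : ℝ) ^ K₀ ≤ b L) →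
  Tendsto (fun L : ℕ => C * (L : ℝ) ^ k * b L ^ (-(9 / 20) : ℝ)) atTop (𝓝 0) ∧
  Tendsto (fun L : ℕ => C * (L : ℝ) ^ k * ((1 + b L + b L ^ 2) *
    Real.exp (-(b L ^ (1 / 200 : ℝ))))) atTop (𝓝 0)

/-- **Task GLU-PERT2** (abstract perturbation lemma, second moment; only Mathlib; 50-90 lines).

Proof. `sd1` of the direction with `l`: `l c + E[l (T Y)] = β E[l (B + q + r)]`, `r = h - B (Y) - q (Y, Y)`,
`|r| ≤ K n³`, `n = ν (Y) ≤ K`, so `|β E[B l] - l c| ≤ E|l (T Y)| + β E|l (q + r)| ≤ K² E n + 2 K³ β E n³` and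
`E n^j ≤ M^j + K^j p` (split into `n ≤ M` and `n > M`). -/
def S_PERT2 : Prop := ∀ {Ω E : Type} [MeasurableSpace Ω] [AddCommGroup E] [Module ℝ E] (μ : Measure Ω)
  [IsProbabilityMeasure μ] (Y : Ω → E) (ν : E → ℝ) (β K M p : ℝ) (c : E)
  (T : E →ₗ[ℝ] E) (B l : E →ₗ[ℝ] ℝ) (q : E →ₗ[ℝ] E →ₗ[ℝ] ℝ) (h : Ω → ℝ),
  1 ≤ K → 0 ≤ β → 0 ≤ M → 0 ≤ p → (∀ A, 0 ≤ ν A) → (∀ ω, ν (Y ω) ≤ K) →
  Measurable (fun ω => ν (Y ω)) → μ.real {ω | M < ν (Y ω)} ≤ p →
  (∀ l : E →ₗ[ℝ] ℝ, (∃ C, ∀ A, |l A| ≤ C * ν A) → Measurable fun ω => l (Y ω)) →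
  (∀ k : E →ₗ[ℝ] E →ₗ[ℝ] ℝ, (∃ C, ∀ A A', |k A A'| ≤ C * ν A * ν A') →
    Measurable fun ω => k (Y ω) (Y ω)) →
  Dir μ Y ν β K c T B q h → (∀ A, |l A| ≤ K * ν A) →
  |β * ∫ ω, B (Y ω) * l (Y ω) ∂μ - l c| ≤ 20 * K ^ 9 * (M + β * M ^ 3 + (1 + β) * p)

/-- **Task GLU-EN** (Riemann sum of the energy form; 80-130 lines).

Proof. `EL_eq` of `N990/C/Def.lean` (with `A = box D (K * L)`, `P = Ns A`) expresses
`EL v = (1 / L) ^ (D + 1) * L ^ 2 * ∑ x ∈ Ns A, bx v v x = (L ^ D)⁻¹ * L * ∑ ..`, and `EL_rs` of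
`N839/C/Restr.lean` says `EL (rs L u) → EC u` for `IsTest u`. Polarize: `rs L (φ1 ± φ2) = rs L φ1 ± rs L φ2`,
`4 bx u v = bx (u + v) (u + v) - bx (u - v) (u - v)` (`bx_add_left`, ..., and the symmetry `bx u v = bx v u`
for scalar fields), `IsTest (φ1 ± φ2)` (`ContDiff.add`, `HasCompactSupport.add`), and
`EC (φ1 + φ2) - EC (φ1 - φ2) = 4 ∫ ..` (`pd` is additive; the integrands are continuous with compact
support, so integrable; or `setIntegral_congr_fun` after `integral_sub`). -/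
def S_EN : Prop := ∀ {D : ℕ} (φ1 φ2 : N990.C.Pt D → Fin D → ℝ), N990.C.IsTest φ1 →
  N990.C.IsTest φ2 → ∀ K : ℕ,
  (∀ L : ℕ, 1 ≤ L → ∀ x, x ∉ box D (K * L) → (N839.C.rs L φ1 : SF D L) x = 0 ∧
    (N839.C.rs L φ2 : SF D L) x = 0) →
  Tendsto (fun L : ℕ => ((L : ℝ) ^ D)⁻¹ * L * ∑ x ∈ Ns (box D (K * L)),
      bx (N839.C.rs L φ1 : SF D L) (N839.C.rs L φ2) x) atTop
    (𝓝 (∫ p in N990.C.Slb D, ((∑ i, N990.C.pd φ1 (N990.C.ez D) i p *
      N990.C.pd φ2 (N990.C.ez D) i p) + ∑ i, ∑ j, if i < j then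
      (N990.C.pd φ1 (N990.C.eh i) j p - N990.C.pd φ1 (N990.C.eh j) i p) *
        (N990.C.pd φ2 (N990.C.eh i) j p - N990.C.pd φ2 (N990.C.eh j) i p) else 0)))

end

end Pool.Agent.H586.GLU
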