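import Pool.Agent.H586.GLU.Dr

/-!
# The second and the third moment at a fixed thickness
-/

set_option autoImplicit false
set_option linter.unusedSectionVars false
set_option linter.unusedVariables false

open MeasureTheory Matrix Finset Filter Topology
open scoped Matrix.Norms.Frobenius

namespace Pool.Agent.H586.GLU

open Pool.Agent.N990 hiding CB CB_nonneg dd_le
open Pool.Agent.N109.Slab

noncomputable section

variable {N D L : ℕ} {G : Subgroup (UU N)}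

lemma BL_cf (V : Finset (Site D)) (ω ω' : SF D L) (X X' : Mt N) :
    BL V ω' X' (cf ω X) = ip X' X * ∑ x ∈ Ns V, bx ω' ω x := by
  show ∑ x ∈ Ns V, bx ω' (fun y b => ip X' (cf ω X y b)) x = _
  rw [Finset.mul_sum]
  refine Finset.sum_congr rfl fun x _ => ?_
  have e : (fun y b => ip X' (cf ω X y b) : SF D L) = ip X' X • ω := by
    funext y b
    show ip X' (ω y b • X) = ip X' X * ω y b
    rw [ip_smul_right, mul_comm]
  rw [e, bx_smul_right, smul_eq_mul]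

/-- the parameters of one direction -/
structure Par (V : Finset (Site D)) (ω : SF D L) (X : Mt N) (γ : ℝ → G) (s : ℝ) : Prop where
  grp : Grp X γ
  nX : ‖X‖ ≤ 1
  ω0 : ∀ x, x ∉ V → ω x = 0
  ωs : ∀ x a, |ω x a| ≤ s

section

variable (hDH : S_DH) (hSD : S_SD) (hOBS : S_OBS) (hEXP : S_EXP) (hBND : S_BND)
  [MeasurableSpace G] [BorelSpace G] {β : ℝ} {μ : Measure (Cf G D L)} (hsh : Shf G D L β μ)
  {V : Finset (Site D)} {s : ℝ} (hs : 1 ≤ s) (hD : (D : ℝ) ≤ s) (hL : (L : ℝ) ≤ s)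
  (hN : (N : ℝ) ≤ s) (hV : (V.card : ℝ) ≤ s) (hβ : 0 ≤ β) {M p0 : ℝ} (hM : 0 ≤ M) (hp0 : 0 ≤ p0)
  (htail : ∀ y a, μ.real {σ : Cf G D L | M < ‖Yf σ y a‖} ≤ p0)

include htail hM hsh in
lemma tail_nu : μ.real {σ : Cf G D L | M < nu (clA V) (Yf σ)} ≤ (clA V).card * (D * L) * p0 := by
  have := hsh.prob
  refine (measureReal_mono ?_).trans (bad_le (W := clA V) htail)
  intro σ hσ
  by_contra hcon
  have h1 : nu (clA V) (Yf σ) ≤ M := by
    refine nu_le hM fun x hx a => ?_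
    by_contra h
    exact hcon ⟨x, hx, a, not_le.1 h⟩
  exact absurd hσ (not_lt.2 h1)

include hDH hSD hOBS hEXP hBND hsh hs hD hL hN hV hβ hM hp0 htail in
/-- **The third moment** at a fixed thickness -/
theorem third (hPERT : S_PERT) (hALG : S_ALG) {ω1 ω2 ω3 : SF D L} {X1 X2 X3 : Mt N}
    {γ1 γ2 γ3 : ℝ → G} (P1 : Par V ω1 X1 γ1 s) (P2 : Par V ω2 X2 γ2 s) (P3 : Par V ω3 X3 γ3 s)
    (a1 : X1ᴴ = -X1) (a2 : X2ᴴ = -X2) (a3 : X3ᴴ = -X3) (h21 : ip X2 X1 = 0) (h31 : ip X3 X1 = 0)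
    (h32 : ip X3 X2 = 0) :
    |β ^ 2 * ∫ σ, BL V ω1 X1 (Yf σ) * BL V ω2 X2 (Yf σ) * BL V ω3 X3 (Yf σ) ∂μ -
      (trace (X1 * X2 * X3)).re * ∑ x ∈ Ns V, ∑ p ∈ plabs D L,
        (dp ω1 x p * wd ω2 ω3 x p + dp ω2 x p * wd ω3 ω1 x p + dp ω3 x p * wd ω1 ω2 x p)| ≤
    20 * (100 * s ^ 7) ^ 9 * (M + β * M ^ 3 + β ^ 2 * M ^ 5 + (1 + β + β ^ 2) *
      ((clA V).card * (D * L) * p0)) := by
  have := hsh.prob
  have d1 := dirC hDH hSD hOBS hEXP hBND hsh P1.grp P1.nX P1.ω0 hs hD hL hN hV P1.ωs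
  have d2 := dirC hDH hSD hOBS hEXP hBND hsh P2.grp P2.nX P2.ω0 hs hD hL hN hV P2.ωs
  have d3 := dirC hDH hSD hOBS hEXP hBND hsh P3.grp P3.nX P3.ω0 hs hD hL hN hV P3.ωs
  have hs7 : 1 ≤ s ^ 7 := one_le_pow₀ hs
  have hsK : s ≤ s ^ 7 := le_self_pow₀ hs (by norm_num)
  have h := hPERT μ (fun σ : Cf G D L => Yf σ) (nu (clA V)) β (100 * s ^ 7) M
    ((clA V).card * (D * L) * p0) (cf ω1 X1) (cf ω2 X2) (cf ω3 X3) (Tm ω1 X1) (Tm ω2 X2)
    (Tm ω3 X3) (BL V ω1 X1) (BL V ω2 X2) (BL V ω3 X3) (QL V ω1 X1) (QL V ω2 X2) (QL V ω3 X3)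
    _ _ _ (by linarith) hβ hM (by positivity) (nu_nonneg _)
    (fun σ => (nu_Yf_le _ σ).trans (by linarith)) (nu_meas _) (tail_nu hsh hM htail)
    (fun l hl => by
      obtain ⟨C, hC⟩ := hl
      exact (hOBS (G := G) (W := clA V) (K := C)).1 l hC |>.1)
    (fun k hk => by
      obtain ⟨C, hC⟩ := hk
      exact (hOBS (G := G) (W := clA V) (K := C)).2 k hC |>.1)
    d1 d2 d3 (by rw [BL_cf, h21, zero_mul]) (by rw [BL_cf, h31, zero_mul])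
    (by rw [BL_cf, h32, zero_mul])
  rw [hALG V ω1 ω2 ω3 X1 X2 X3 a1 a2 a3] at h
  exact h

include hDH hSD hOBS hEXP hBND hsh hs hD hL hN hV hβ hM hp0 htail in
/-- **The second moment** at a fixed thickness -/
theorem second (hPERT2 : S_PERT2) {ω1 ω2 : SF D L} {X1 X2 : Mt N}
    {γ1 γ2 : ℝ → G} (P1 : Par V ω1 X1 γ1 s) (P2 : Par V ω2 X2 γ2 s) :
    |β * ∫ σ, BL V ω1 X1 (Yf σ) * BL V ω2 X2 (Yf σ) ∂μ - ip X2 X1 * ∑ x ∈ Ns V, bx ω2 ω1 x| ≤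
    20 * (100 * s ^ 7) ^ 9 * (M + β * M ^ 3 + (1 + β) * ((clA V).card * (D * L) * p0)) := by
  have := hsh.prob
  have d1 := dirC hDH hSD hOBS hEXP hBND hsh P1.grp P1.nX P1.ω0 hs hD hL hN hV P1.ωs
  have d2 := dirC hDH hSD hOBS hEXP hBND hsh P2.grp P2.nX P2.ω0 hs hD hL hN hV P2.ωs
  have hs7 : 1 ≤ s ^ 7 := one_le_pow₀ hs
  have hsK : s ≤ s ^ 7 := le_self_pow₀ hs (by norm_num)
  have h := hPERT2 μ (fun σ : Cf G D L => Yf σ) (nu (clA V)) β (100 * s ^ 7) M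
    ((clA V).card * (D * L) * p0) (cf ω1 X1) (Tm ω1 X1) (BL V ω1 X1) (BL V ω2 X2) (QL V ω1 X1)
    _ (by linarith) hβ hM (by positivity) (nu_nonneg _)
    (fun σ => (nu_Yf_le _ σ).trans (by linarith)) (nu_meas _) (tail_nu hsh hM htail)
    (fun l hl => by
      obtain ⟨C, hC⟩ := hl
      exact (hOBS (G := G) (W := clA V) (K := C)).1 l hC |>.1)
    (fun k hk => by
      obtain ⟨C, hC⟩ := hk
      exact (hOBS (G := G) (W := clA V) (K := C)).2 k hC |>.1)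
    d1 d2.B_le
  rw [BL_cf] at h
  exact h

end

end

end Pool.Agent.H586.GLU
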