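import Pool.Agent.H586.GLU.Fin
import Pool.Agent.H586.GLU.Nz

/-!
# The vertex
-/

set_option autoImplicit false
set_option linter.unusedSectionVars false
set_option linter.unusedVariables false

open MeasureTheory Matrix Finset Filter Topology
open scoped Matrix.Norms.Frobenius

namespace Pool.Agent.H586.GLU

open Pool.Agent.N990 hiding CB CB_nonneg dd_le
open Pool.Agent.N109.Slab
open Pool.Agent.N990.C hiding ext

noncomputable section

variable {N D : ℕ}

lemma pd_cont {u : Pt D → Fin D → ℝ} (h : IsTest u) (e : Pt D) (i : Fin D) :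
    Continuous fun p => pd u e i p := by
  unfold pd
  have h1 := h.smooth.continuous_fderiv (by norm_num)
  exact (continuous_apply i).comp (h1.clm_apply continuous_const)

lemma vc_int {a b c : Pt D → Fin D → ℝ} (ha : IsTest a) (hb : IsTest b) (hc : IsTest c) :
    Integrable fun p => vc a b c p := by
  have hcont : Continuous fun p => vc a b c p := by
    unfold vc
    have h1 := fun e i => pd_cont ha e i
    have h2 := fun i => (continuous_apply i).comp hb.smooth.continuous
    have h3 := fun i => (continuous_apply i).comp hc.smooth.continuous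
    refine continuous_finsetSum _ fun i _ => continuous_finsetSum _ fun j _ => ?_
    by_cases hij : i < j
    · simp only [hij, if_true]
      exact ((h1 _ _).sub (h1 _ _)).mul (continuous_const.mul
        (((h2 i).mul (h3 j)).sub ((h2 j).mul (h3 i))))
    · simp only [hij, if_false]
      exact continuous_const
  refine hcont.integrable_of_hasCompactSupport ?_
  refine hb.supp.mono fun p hp => ?_
  rw [Function.mem_support] at hp ⊢
  intro h0
  apply hp
  unfold vc
  refine Finset.sum_eq_zero fun i _ => Finset.sum_eq_zero fun j _ => ?_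
  rw [h0]
  simp

lemma vd3_eq (a b c : Pt D → Fin D → ℝ) (p : Pt D) :
    2 * vd3 a b c p = vc a b c p + vc b c a p + vc c a b p := by
  unfold vd3 vc
  rw [← Finset.sum_add_distrib, ← Finset.sum_add_distrib, Finset.mul_sum]
  refine Finset.sum_congr rfl fun i _ => ?_
  rw [← Finset.sum_add_distrib, ← Finset.sum_add_distrib, Finset.mul_sum]
  refine Finset.sum_congr rfl fun j _ => ?_
  split_ifs
  · ring
  · ring

lemma trace_skew {X Y Z : Mt N} (hX : Xᴴ = -X) (hY : Yᴴ = -Y) (hZ : Zᴴ = -Z) :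
    (trace (X * Z * Y)).re = -(trace (X * Y * Z)).re := by
  have h1 : trace (X * Z * Y) = trace (Y * X * Z) := by
    rw [trace_mul_cycle]
  have h2 : (trace (Y * X * Z)).re = (trace ((Y * X * Z)ᴴ)).re := by
    rw [trace_conjTranspose]; simp
  have h3 : (Y * X * Z)ᴴ = -(Z * X * Y) := by
    rw [conjTranspose_mul, conjTranspose_mul, hX, hY, hZ]
    noncomm_ring
  have h4 : trace (Z * X * Y) = trace (X * Y * Z) := by
    rw [← trace_mul_cycle]
  rw [h1, h2, h3, trace_neg, Complex.neg_re, h4]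

/-- the constant and the vertex -/
theorem vertex_eq {X : Fin 3 → Mt N} (hX : ∀ j, (X j)ᴴ = -X j) {φ : Fin 3 → Pt D → Fin D → ℝ}
    (hφ : ∀ j, IsTest (φ j)) :
    (trace (X 0 * X 1 * X 2)).re * ((∫ p in Slb D, vc (φ 0) (φ 1) (φ 2) p) +
        (∫ p in Slb D, vc (φ 1) (φ 2) (φ 0) p) + ∫ p in Slb D, vc (φ 2) (φ 0) (φ 1) p) =
      -(trace ((X 0)ᴴ * (X 1 * X 2 - X 2 * X 1))).re *
        ∫ p in Slb D, vd3 (φ 0) (φ 1) (φ 2) p := by
  have i1 := (vc_int (hφ 0) (hφ 1) (hφ 2)).integrableOn (s := Slb D)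
  have i2 := (vc_int (hφ 1) (hφ 2) (hφ 0)).integrableOn (s := Slb D)
  have i3 := (vc_int (hφ 2) (hφ 0) (hφ 1)).integrableOn (s := Slb D)
  have e1 : (∫ p in Slb D, vc (φ 0) (φ 1) (φ 2) p) + (∫ p in Slb D, vc (φ 1) (φ 2) (φ 0) p) +
      (∫ p in Slb D, vc (φ 2) (φ 0) (φ 1) p) = 2 * ∫ p in Slb D, vd3 (φ 0) (φ 1) (φ 2) p := by
    rw [← integral_const_mul]
    simp only [vd3_eq]
    have i12 : IntegrableOn (fun p => vc (φ 0) (φ 1) (φ 2) p + vc (φ 1) (φ 2) (φ 0) p) (Slb D) :=
      i1.add i2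
    rw [integral_add i12 i3, integral_add i1 i2]
  have e2 : (trace ((X 0)ᴴ * (X 1 * X 2 - X 2 * X 1))).re =
      -2 * (trace (X 0 * X 1 * X 2)).re := by
    have h1 := trace_skew (hX 0) (hX 1) (hX 2)
    have h2 : (X 0)ᴴ * (X 1 * X 2 - X 2 * X 1) = X 0 * X 2 * X 1 - X 0 * X 1 * X 2 := by
      rw [hX 0]
      noncomm_ring
    rw [h2, trace_sub, Complex.sub_re, h1]
    ring
  rw [e1, e2]
  ring

end

end Pool.Agent.H586.GLU
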